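import Mathlib
import Pool.Graph.R_pool_sql_team_seeded_63374d34.N491.CD.Prm2

/-!
# The construction of a tree of sequences of primes
-/

set_option autoImplicit false
set_option maxHeartbeats 1000000

namespace Pool.Agent.H89.CD

open Pool.Agent.N491.CD

/-- a step of the construction -/
structure Stp (l : ℕ) [Fact l.Prime] where
  P : ℕ
  Q : ℕ
  R : Finset ℕ → ℕ
  m : ℕ
  D : ℕ
  A : Finset ℕ → ℕ
  N : ℕ
  w : ℤ_[l]
  v : Finset ℕ → ℤ_[l]

variable {l : ℕ} [hl : Fact l.Prime]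

/-- the conditions on the step number `i` -/
structure Goo (i : ℕ) (s : Stp l) : Prop where
  hD : ((s.D : ℕ) : ℤ_[l]) = s.w ^ l ^ i
  hw : ‖s.w - 1‖ ≤ (l : ℝ) ^ (-(2 : ℕ) : ℤ)
  hA : ∀ T, ((s.A T : ℕ) : ℤ_[l]) = s.v T ^ l ^ i
  hv : ∀ T, ‖s.v T‖ = 1
  hD0 : 0 < s.D
  hD1 : s.D ≡ 1 [MOD l ^ 2]
  hN : Nat.Coprime s.N l
  hN0 : s.N ≠ 0
  hA0 : ∀ T, 0 < s.A T

/-- the relation between the steps `i` and `i + 1` -/
structure Nxt (i : ℕ) (s s' : Stp l) : Prop where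
  hP : s'.P.Prime
  hPl : s'.P ≠ l
  hQ : s'.Q.Prime
  hR : ∀ T, (s'.R T).Prime
  hD : s'.D = s.D * s'.Q ^ l ^ i
  hA : ∀ T, s'.A T = s.A (T.filter (· < i)) * ((if i ∈ T then s'.P else 1) * s'.R T) ^ l ^ i
  hN : s'.N = s.N * s'.P
  hAP : ∀ T ⊆ Finset.range i, s.A T < s'.P
  hNP : s.N < s'.P
  hPR : ∀ T, s'.P < s'.R T
  hQN : s'.Q ≡ 1 [MOD s.N]
  hm : 2 * i + 1 ≤ s'.m
  ho : orderOf (s'.D : ZMod s'.P) = l ^ s'.m

theorem exists_goo_zero : ∃ s : Stp l, Goo 0 s ∧ s.D = 1 ∧ ∀ T, s.A T = 1 := by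
  refine ⟨⟨0, 0, fun _ => 0, 0, 1, fun _ => 1, 1, 1, fun _ => 1⟩,
    ⟨?_, ?_, fun T => ?_, fun T => ?_, ?_, ?_, ?_, ?_, fun T => ?_⟩, rfl, fun T => rfl⟩
  · simp
  · simp only [sub_self, norm_zero]
    positivity
  · simp
  · exact norm_one
  · exact one_pos
  · rfl
  · exact Nat.coprime_one_left l
  · exact one_ne_zero
  · exact one_pos

theorem exists_nxt {i : ℕ} {s : Stp l} (hs : Goo i s) :
    ∃ s' : Stp l, Goo (i + 1) s' ∧ Nxt i s s' := by
  have hw1 : ‖s.w‖ = 1 := norm_eq_one (n := 2) (by norm_num) hs.hw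
  obtain ⟨Q, hQ0, hQ, hQN, hQw⟩ := exists_prime_mod hw1 hs.hN hs.hN0 0
  obtain ⟨w', hw', hw'1⟩ := exists_root hQw
  have hl1 : (1 : ℝ) < l := by exact_mod_cast hl.out.one_lt
  have hQ1 : Q ≡ 1 [MOD l ^ 2] := by
    have h1 : ‖((Q : ℕ) : ℤ_[l]) - 1‖ ≤ (l : ℝ) ^ (-(2 : ℕ) : ℤ) := by
      have e : s.w * ((Q : ℤ_[l]) - 1) = (s.w * Q - 1) - (s.w - 1) := by ring
      have h2 : ‖s.w * ((Q : ℤ_[l]) - 1)‖ = ‖(Q : ℤ_[l]) - 1‖ := by rw [norm_mul, hw1, one_mul]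
      rw [← h2, e, sub_eq_add_neg]
      refine (PadicInt.nonarchimedean _ _).trans (max_le (hQw.trans ?_) ?_)
      · exact zpow_le_zpow_right₀ hl1.le (by norm_num)
      · rw [norm_neg]
        exact hs.hw
    rw [norm_le_iff, map_sub, map_one, map_natCast, sub_eq_zero] at h1
    rw [← ZMod.natCast_eq_natCast_iff, Nat.cast_one]
    exact h1
  have hQ2 : 2 ≤ Q := hQ.two_le
  have hD'1 : s.D * Q ^ l ^ i ≡ 1 [MOD l ^ 2] := by
    have := hs.hD1.mul (hQ1.pow (l ^ i))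
    rwa [one_pow, one_mul] at this
  have hD'2 : 2 ≤ s.D * Q ^ l ^ i := by
    have h1 : 1 < Q ^ l ^ i := Nat.one_lt_pow (pow_ne_zero _ hl.out.ne_zero) hQ.one_lt
    have h2 := hs.hD0
    nlinarith
  set K : ℕ := (∑ T ∈ (Finset.range i).powerset, s.A T) + s.N with hK
  obtain ⟨P, hP, hPl, hPo⟩ := exists_prime l hD'2 hD'1 (K + 2 * i)
  have hdvd := order_dvd hP hPo
  have hKP : K < P := by
    have h1 : l ^ (K + 2 * i + 1) ≤ P - 1 := Nat.le_of_dvd (by have := hP.two_le; omega) hdvd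
    have h2 : K + 2 * i + 1 < l ^ (K + 2 * i + 1) := Nat.lt_pow_self hl.out.one_lt
    omega
  have hPn : ‖(P : ℤ_[l])‖ = 1 := norm_natCast_prime hP hPl
  have hvP : ∀ T : Finset ℕ, ‖s.v (T.filter (· < i)) *
      ((if i ∈ T then P else 1 : ℕ) : ℤ_[l])‖ = 1 := by
    intro T
    split_ifs
    · rw [norm_mul, hs.hv, hPn, one_mul]
    · rw [norm_mul, hs.hv, Nat.cast_one, norm_one, one_mul]
  choose R hRP hR hR1 hRv using fun T =>
    exists_prime_mod (hvP T) (Nat.coprime_one_left l) one_ne_zero P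
  choose v' hv' hv'1 using fun T => exists_root (hRv T)
  refine ⟨⟨P, Q, R, K + 2 * i + 1, s.D * Q ^ l ^ i,
      fun T => s.A (T.filter (· < i)) * ((if i ∈ T then P else 1) * R T) ^ l ^ i, s.N * P, w', v'⟩,
    ⟨?_, hw'1, fun T => ?_, fun T => norm_eq_one (n := 2) (by norm_num) (hv'1 T), by positivity,
      hD'1, ?_, ?_, fun T => ?_⟩,
    ⟨hP, hPl, hQ, hR, rfl, fun T => rfl, rfl, fun T hT => ?_, by change s.N < P; omega, hRP, hQN,
      by change 2 * i + 1 ≤ K + 2 * i + 1; omega, hPo⟩⟩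
  · change ((s.D * Q ^ l ^ i : ℕ) : ℤ_[l]) = w' ^ l ^ (i + 1)
    rw [pow_succ', pow_mul, hw', mul_pow, ← hs.hD]
    push_cast
    ring
  · change ((s.A (T.filter (· < i)) * ((if i ∈ T then P else 1) * R T) ^ l ^ i : ℕ) : ℤ_[l]) =
      v' T ^ l ^ (i + 1)
    rw [pow_succ', pow_mul, hv', mul_assoc, mul_pow (s.v _), ← hs.hA]
    push_cast
    ring
  · exact hs.hN.mul_left ((Nat.coprime_primes hP hl.out).2 hPl)
  · exact mul_ne_zero hs.hN0 hP.ne_zero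
  · change 0 < s.A (T.filter (· < i)) * ((if i ∈ T then P else 1) * R T) ^ l ^ i
    have h1 := hs.hA0 (T.filter (· < i))
    have h2 := hP.pos
    have h3 := (hR T).pos
    split_ifs <;> positivity
  · have h1 : s.A T ≤ ∑ T ∈ (Finset.range i).powerset, s.A T :=
      Finset.single_le_sum (f := s.A) (fun _ _ => Nat.zero_le _) (Finset.mem_powerset.2 hT)
    change s.A T < P
    omega

variable (l) in
/-- the sequence of steps -/
noncomputable def sq : (i : ℕ) → {s : Stp l // Goo i s}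
  | 0 => ⟨(exists_goo_zero (l := l)).choose, (exists_goo_zero (l := l)).choose_spec.1⟩
  | i + 1 => ⟨(exists_nxt (sq i).2).choose, (exists_nxt (sq i).2).choose_spec.1⟩

theorem sq_nxt (i : ℕ) : Nxt i (sq l i).1 (sq l (i + 1)).1 :=
  (exists_nxt (sq l i).2).choose_spec.2

variable (l) in
noncomputable def P3 (i : ℕ) : ℕ := (sq l (i + 1)).1.P
variable (l) in
noncomputable def Q3 (i : ℕ) : ℕ := (sq l (i + 1)).1.Q
variable (l) in
noncomputable def R3 (i : ℕ) (T : Finset ℕ) : ℕ := (sq l (i + 1)).1.R T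
variable (l) in
noncomputable def m3 (i : ℕ) : ℕ := (sq l (i + 1)).1.m

open Classical in
/-- the first `n` elements of a set of natural numbers -/
noncomputable def cut (X : Set ℕ) (n : ℕ) : Finset ℕ := (Finset.range n).filter (· ∈ X)

theorem cut_subset (X : Set ℕ) (n : ℕ) : cut X n ⊆ Finset.range n := by
  classical
  exact Finset.filter_subset _ _

theorem mem_cut {X : Set ℕ} {n i : ℕ} : i ∈ cut X n ↔ i < n ∧ i ∈ X := by
  classical
  rw [cut, Finset.mem_filter, Finset.mem_range]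

theorem cut_filter (X : Set ℕ) (i : ℕ) : (cut X (i + 1)).filter (· < i) = cut X i := by
  ext j
  rw [Finset.mem_filter, mem_cut, mem_cut]
  constructor
  · rintro ⟨⟨_, h1⟩, h2⟩
    exact ⟨h2, h1⟩
  · rintro ⟨h1, h2⟩
    exact ⟨⟨by omega, h2⟩, h1⟩

open Classical in
variable (l) in
/-- the sequence which belongs to the set `X` -/
noncomputable def B3 (X : Set ℕ) (i : ℕ) : ℕ :=
  (if i ∈ X then P3 l i else 1) * R3 l i (cut X (i + 1))

theorem sq_D (i : ℕ) : (sq l i).1.D = ∏ j ∈ Finset.range i, Q3 l j ^ l ^ j := by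
  induction i with
  | zero => exact (exists_goo_zero (l := l)).choose_spec.2.1
  | succ i ih =>
    rw [Finset.prod_range_succ, ← ih]
    exact (sq_nxt i).hD

theorem sq_A (X : Set ℕ) (i : ℕ) :
    (sq l i).1.A (cut X i) = ∏ j ∈ Finset.range i, B3 l X j ^ l ^ j := by
  induction i with
  | zero => exact (exists_goo_zero (l := l)).choose_spec.2.2 _
  | succ i ih =>
    rw [Finset.prod_range_succ, ← ih, (sq_nxt i).hA, cut_filter]
    congr 2
    rw [B3]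
    congr 1
    by_cases h : i ∈ X
    · rw [if_pos h, if_pos (mem_cut.2 ⟨by omega, h⟩)]
      rfl
    · rw [if_neg h, if_neg fun h1 => h (mem_cut.1 h1).2]

theorem P3_prime (i : ℕ) : (P3 l i).Prime := (sq_nxt i).hP

theorem P3_ne (i : ℕ) : P3 l i ≠ l := (sq_nxt i).hPl

theorem Q3_prime (i : ℕ) : (Q3 l i).Prime := (sq_nxt i).hQ

theorem R3_prime (i : ℕ) (T : Finset ℕ) : (R3 l i T).Prime := (sq_nxt i).hR T

theorem P3_dvd_N {i j : ℕ} (h : i < j) : P3 l i ∣ (sq l j).1.N := by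
  induction j with
  | zero => omega
  | succ j ih =>
    rw [(sq_nxt j).hN]
    rcases Nat.lt_succ_iff_lt_or_eq.1 h with h1 | rfl
    · exact (ih h1).mul_right _
    · exact dvd_mul_left _ _

theorem P3_lt {i j : ℕ} (h : i < j) : P3 l i < P3 l j :=
  (Nat.le_of_dvd (Nat.pos_of_ne_zero (sq l j).2.hN0) (P3_dvd_N h)).trans_lt (sq_nxt j).hNP

theorem Q3_modEq {i j : ℕ} (h : i < j) : Q3 l j ≡ 1 [MOD P3 l i] :=
  (sq_nxt j).hQN.of_dvd (P3_dvd_N h)

theorem P3_order (i : ℕ) :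
    orderOf ((∏ j ∈ Finset.range (i + 1), Q3 l j ^ l ^ j : ℕ) : ZMod (P3 l i)) = l ^ m3 l i := by
  rw [← sq_D]
  exact (sq_nxt i).ho

theorem m3_ge (i : ℕ) : 2 * i + 1 ≤ m3 l i := (sq_nxt i).hm

theorem not_dvd_D3 (i : ℕ) : ¬ P3 l i ∣ ∏ j ∈ Finset.range (i + 1), Q3 l j ^ l ^ j := by
  intro h
  have : Fact (P3 l i).Prime := ⟨P3_prime i⟩
  have h1 := P3_order (l := l) i
  rw [(ZMod.natCast_eq_zero_iff _ _).2 h, orderOf_zero] at h1
  exact pow_ne_zero _ hl.out.ne_zero h1.symm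

theorem not_dvd_Q3 (i j : ℕ) : ¬ P3 l i ∣ Q3 l j := by
  rcases lt_or_ge i j with h | h
  · intro h1
    have h2 := (Nat.modEq_zero_iff_dvd.2 h1).symm.trans (Q3_modEq h)
    exact (P3_prime i).one_lt.ne' (Nat.dvd_one.1 (Nat.modEq_zero_iff_dvd.1 h2.symm))
  · intro h1
    refine not_dvd_D3 i (h1.trans ?_)
    refine (dvd_pow_self _ (pow_ne_zero j hl.out.ne_zero)).trans
      (Finset.dvd_prod_of_mem _ (Finset.mem_range.2 (by omega)))

theorem not_dvd_R3 (i : ℕ) (T : Finset ℕ) : ¬ P3 l i ∣ R3 l i T := by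
  rw [Nat.prime_dvd_prime_iff_eq (P3_prime i) (R3_prime i T)]
  exact ((sq_nxt i).hPR T).ne

theorem B3_pos (X : Set ℕ) (i : ℕ) : 0 < B3 l X i := by
  rw [B3]
  have h1 := (P3_prime (l := l) i).pos
  have h2 := (R3_prime (l := l) i (cut X (i + 1))).pos
  split_ifs <;> positivity

theorem B3_le_A (X : Set ℕ) {i j : ℕ} (h : i < j) : B3 l X i ≤ (sq l j).1.A (cut X j) := by
  refine Nat.le_of_dvd ((sq l j).2.hA0 _) ?_
  rw [sq_A]
  exact (dvd_pow_self _ (pow_ne_zero i hl.out.ne_zero)).trans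
    (Finset.dvd_prod_of_mem (fun j => B3 l X j ^ l ^ j) (Finset.mem_range.2 h))

/-- `P_i` divides `B_j` only if `j = i` and `i ∈ X`. -/
theorem not_dvd_B3 (X : Set ℕ) {i j : ℕ} (h : i ≠ j ∨ i ∉ X) : ¬ P3 l i ∣ B3 l X j := by
  rcases eq_or_ne i j with rfl | hij
  · rw [B3, if_neg (h.resolve_left fun h => h rfl), one_mul]
    exact not_dvd_R3 i _
  rcases lt_or_gt_of_ne hij with h | h
  · have h2 : P3 l i < P3 l j := P3_lt h
    have h3 : P3 l j < R3 l j (cut X (j + 1)) := (sq_nxt j).hPR _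
    rw [B3, (P3_prime i).dvd_mul, Nat.prime_dvd_prime_iff_eq (P3_prime i) (R3_prime j _)]
    rintro (h4 | h4)
    · split_ifs at h4
      · rw [Nat.prime_dvd_prime_iff_eq (P3_prime i) (P3_prime j)] at h4
        omega
      · exact (P3_prime i).one_lt.ne' (Nat.dvd_one.1 h4)
    · omega
  · intro h1
    have h2 : B3 l X j < P3 l i :=
      (B3_le_A X h).trans_lt ((sq_nxt i).hAP _ (cut_subset X i))
    have h3 := Nat.le_of_dvd (B3_pos X j) h1
    omega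

theorem B3_of_mem {X : Set ℕ} {i : ℕ} (h : i ∈ X) :
    B3 l X i = P3 l i * R3 l i (cut X (i + 1)) := by
  rw [B3, if_pos h]

theorem exists_pow_Q3 (i : ℕ) : ∃ w : ℤ_[l],
    ((∏ j ∈ Finset.range i, Q3 l j ^ l ^ j : ℕ) : ℤ_[l]) = w ^ l ^ i :=
  ⟨_, by rw [← sq_D]; exact (sq l i).2.hD⟩

theorem exists_pow_B3 (X : Set ℕ) (i : ℕ) : ∃ w : ℤ_[l],
    ((∏ j ∈ Finset.range i, B3 l X j ^ l ^ j : ℕ) : ℤ_[l]) = w ^ l ^ i :=
  ⟨_, by rw [← sq_A]; exact (sq l i).2.hA _⟩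

end Pool.Agent.H89.CD
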