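import Mathlib
import Pool.Graph.R_pool_sql_team_seeded_63374d34.N491.CD.Core3
import Pool.Agent.H89.CD.Prm3

/-!
# The non-existence of a cochain for all linear combinations of the Kummer cocycles
-/

set_option autoImplicit false
set_option linter.unusedSectionVars false
set_option maxHeartbeats 1000000

open NumberField IntermediateField Pool.Agent.N491.CD

namespace Pool.Agent.H89.CD

variable {F : Type} [Field F] [NumberField F] {l : ℕ} [hl : Fact l.Prime]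

variable (l) in
/-- the Kummer cocycle which belongs to the set `X` -/
noncomputable def alX (X : Set ℕ) (σ : AbsGal F) : ℤ_[l] := sm l (B3 l X) σ

variable (l) in
/-- the second Kummer cocycle -/
noncomputable def be (σ : AbsGal F) : ℤ_[l] := sm l (Q3 l) σ

theorem be_mul (σ τ : AbsGal F) : be l (σ * τ) = be l σ + chiZ l σ * be l τ :=
  sm_mul (fun i => (Q3_prime (l := l) i).ne_zero) σ τ

theorem alX_mul (X : Set ℕ) (σ τ : AbsGal F) :
    alX l X (σ * τ) = alX l X σ + chiZ l σ * alX l X τ :=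
  sm_mul (fun i => (B3_pos X i).ne') σ τ

theorem continuous_be : Continuous (be l : AbsGal F → ℤ_[l]) :=
  continuous_sm fun i => (Q3_prime (l := l) i).ne_zero

theorem continuous_alX (X : Set ℕ) : Continuous (alX l X : AbsGal F → ℤ_[l]) :=
  continuous_sm fun i => (B3_pos X i).ne'

theorem be_one : be l (1 : AbsGal F) = 0 := by
  have h := be_mul (l := l) (1 : AbsGal F) 1
  rw [chiZ_one, mul_one, one_mul] at h
  simpa using h

/-- the condition on a cochain -/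
def IsCo (a C : AbsGal F → ℚ_[l]) : Prop :=
  ∀ g h : AbsGal F, C (g * h) = C g + a h * (chi l g * (be l g : ℚ_[l])) + chi l g ^ 2 * C h

variable {a C : AbsGal F → ℚ_[l]}

theorem IsCo.one (hC : IsCo a C) : C 1 = 0 := by
  have h := hC 1 1
  rw [be_one] at h
  have h1 : chi l (1 : AbsGal F) = 1 := chi_one
  rw [h1, mul_one] at h
  simpa using h

theorem IsCo.mul_left (hC : IsCo a C) {g h : AbsGal F} (hg : chiZ l g = 1)
    (hg' : be l g = 0) : C (g * h) = C g + C h := by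
  rw [hC, hg', ← coe_chiZ, hg]
  simp

theorem IsCo.pow (hC : IsCo a C) {g : AbsGal F} (hg : chiZ l g = 1)
    (hg' : be l g = 0) (n : ℕ) : C (g ^ n) = n * C g := by
  induction n with
  | zero => simp [hC.one]
  | succ n ih =>
    rw [pow_succ', hC.mul_left hg hg', ih]
    push_cast
    ring

section rel

variable {p : ℕ} [hp : Fact p.Prime] {ι : AlgebraicClosure F →+* PadicAlgCl p}

/-- The relation between the values of the cochain at a tame element and at a Frobenius element. -/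
theorem IsCo.rel (hC : IsCo a C) (hcont : Continuous C) (hpl : p ≠ l)
    (hpQ : ∀ j, ¬ p ∣ Q3 l j) {S T : GG p} {q : ℕ}
    (hS : Frob S q) (hT : Inert T) {s t : AbsGal F} (hs : Compat ι S s) (ht : Compat ι T t) :
    C t * (1 - q) = a t * (be l s : ℚ_[l]) := by
  have h1 : chiZ l t = 1 := chi_inert hpl ht hT
  have h2 : be l t = 0 := sm_inert hpl hpQ ht hT
  set w : AbsGal F := s * t * s⁻¹ * (t ^ q)⁻¹ with hw
  have hW := wild_of hT hS
  have hWc : Compat ι (S * T * S⁻¹ * (T ^ q)⁻¹) w := ((hs.mul ht).mul hs.inv).mul (ht.pow q).inv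
  have h3 : chiZ l w = 1 := chi_inert hpl hWc hW.inert
  have h4 : be l w = 0 := sm_inert hpl hpQ hWc hW.inert
  have h5 : C w = 0 := wild_zero hpl hcont hC.one hW hWc fun n => hC.pow h3 h4 n
  have h6 : s * t = w * (t ^ q * s) := by rw [hw]; group
  have h7 : chiZ l s = q := chi_frob hpl hs hS
  have h8 := congrArg C h6
  have h9 : chiZ l (t ^ q) = 1 := chi_inert hpl (ht.pow q) (hT.pow q)
  have h10 : be l (t ^ q) = 0 := sm_inert hpl hpQ (ht.pow q) (hT.pow q)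
  rw [hC.mul_left h3 h4, h5, hC.mul_left h9 h10, hC.pow h1 h2, hC s t, ← coe_chiZ, h7] at h8
  rw [PadicInt.coe_natCast] at h8
  have hq : (q : ℚ_[l]) ≠ 0 := by
    have : (chiZ l s : ℤ_[l]) ≠ 0 :=
      (Pool.Agent.N829.HT.chiF F l s).ne_zero
    rw [h7] at this
    intro h0
    apply this
    exact_mod_cast h0
  have h11 : (q : ℚ_[l]) * (C t * (1 - q)) = q * (a t * (be l s : ℚ_[l])) := by
    linear_combination -h8
  exact mul_left_cancel₀ hq h11

end rel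

/-- the value of `be` at a Frobenius element -/
theorem be_frob (i : ℕ) [hp : Fact (P3 l i).Prime] {ι : AlgebraicClosure F →+* PadicAlgCl (P3 l i)}
    {S : GG (P3 l i)} {q : ℕ} (hq : 1 < q) (hdvd : l ^ m3 l i ∣ q - 1) (hS : Frob S q)
    {s : AbsGal F} (hs : Compat ι S s) :
    (l : ℝ) ^ m3 l i * ‖(q : ℤ_[l]) - 1‖ ≤ ‖be l s‖ := by
  have hl1 : (1 : ℝ) < l := by exact_mod_cast hl.out.one_lt
  have hpl : P3 l i ≠ l := P3_ne i
  have hz := (isZ_zF F l).map ι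
  have hm : 0 < m3 l i := by
    have := m3_ge (l := l) i
    omega
  set D : ℕ := ∏ j ∈ Finset.range (i + 1), Q3 l j ^ l ^ j with hD
  have hD0 : ¬ P3 l i ∣ D := not_dvd_D3 i
  have hQ0 : ∀ j, Q3 l j ≠ 0 := fun j => (Q3_prime (l := l) j).ne_zero
  have hr := (isRoots_rprod (F := F) (l := l) hQ0 (i + 1)).map ι
  have h1 : kum l (fun n => ι (zF F l n)) (fun n => ι (rprod F l (Q3 l) (i + 1) n)) (rh S) =
      ∑ j ∈ Finset.range (i + 1), (l : ℤ_[l]) ^ j * kap l (Q3 l j) s := by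
    refine kum_unique hz hr (σ := rh S) ?_ fun n => ?_
    · rw [map_natCast, map_natCast]
    · rw [rh_apply, ← hs, rprod_spec hQ0, map_mul, map_ee]
  have h2 := kum_frob hz hr hpl (map_natCast _ _) hD0 hm hq hS (P3_order i) hdvd
  rw [h1] at h2
  have h3 : ‖be l s - ∑ j ∈ Finset.range (i + 1), (l : ℤ_[l]) ^ j * kap l (Q3 l j) s‖ ≤
      ‖(q : ℤ_[l]) - 1‖ := by
    refine sm_tail _ s (i + 1) (norm_nonneg _) fun j hj => ?_
    have hj0 := (Q3_prime (l := l) j).ne_zero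
    rw [kap_compat hj0 hs]
    exact kum_frob_one hz ((isRoots_rF (F := F) l hj0).map ι) hpl (map_natCast _ _)
      (Q3_modEq (by omega)) hq hS
  have hqn : (0 : ℝ) < ‖(q : ℤ_[l]) - 1‖ := by
    rw [norm_pos_iff, sub_ne_zero]
    intro h
    have h2 : ((q : ℕ) : ℤ_[l]) = ((1 : ℕ) : ℤ_[l]) := by rw [h, Nat.cast_one]
    exact hq.ne' (Nat.cast_injective h2)
  have h4 : ‖(q : ℤ_[l]) - 1‖ < (l : ℝ) ^ m3 l i * ‖(q : ℤ_[l]) - 1‖ := by
    have h5 : (1 : ℝ) < (l : ℝ) ^ m3 l i := one_lt_pow₀ hl1 hm.ne'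
    nlinarith
  have h5 := (h3.trans_lt h4).trans_le h2
  have h6 : ‖be l s‖ =
      ‖∑ j ∈ Finset.range (i + 1), (l : ℤ_[l]) ^ j * kap l (Q3 l j) s‖ := by
    have e : be l s = (be l s -
      ∑ j ∈ Finset.range (i + 1), (l : ℤ_[l]) ^ j * kap l (Q3 l j) s) +
      ∑ j ∈ Finset.range (i + 1), (l : ℤ_[l]) ^ j * kap l (Q3 l j) s := by ring
    conv_lhs => rw [e]
    rw [PadicInt.norm_add_eq_max_of_ne h5.ne, max_eq_right h5.le]
  rw [h6]
  exact h2

theorem core_bound' (hC : IsCo a C) (hcont : Continuous C) {i : ℕ} {X : Set ℕ} (hi : i ∈ X)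
    {c : ℚ_[l]} (ha : ∀ t : AbsGal F, (∀ Y : Set ℕ, i ∉ Y → alX l Y t = 0) →
      a t = c * (alX l X t : ℚ_[l])) :
    ∃ t : AbsGal F, (l : ℝ) ^ (i + 1) * ‖c‖ ≤ Module.finrank ℚ F * ‖C t‖ := by
  have hl0 : (0 : ℝ) < l := by exact_mod_cast hl.out.pos
  have hl1 : (1 : ℝ) ≤ l := by exact_mod_cast hl.out.one_lt.le
  have hp : Fact (P3 l i).Prime := ⟨P3_prime i⟩
  have hpl : P3 l i ≠ l := P3_ne i
  have hp0 : P3 l i ≠ 0 := hp.out.ne_zero
  have hBe : B3 l X i = P3 l i * R3 l i (cut X (i + 1)) := B3_of_mem hi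
  have hPR0 : B3 l X i ≠ 0 := (B3_pos X i).ne'
  obtain ⟨ι⟩ := exists_embedding (F := F) (p := P3 l i)
  obtain ⟨S0, hS0⟩ := exists_frob (p := P3 l i)
  have hr := (isRoots_rF (F := F) l hPR0).map ι
  have hz := (isZ_zF F l).map ι
  obtain ⟨T0, hT0, hT0'⟩ := exists_tame' (p := P3 l i) (l := l) hpl
    (R := R3 l i (cut X (i + 1))) (not_dvd_R3 i _)
    (π := ι (rF F l (B3 l X i) 1)) (by
    have := hr.pow 1
    rw [pow_one] at this
    rw [this, map_natCast, hBe])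
  obtain ⟨k, s, hk0, hkD, hs⟩ := exists_pow_compat ι S0
  obtain ⟨k', t, hk0', hkD', ht⟩ := exists_pow_compat ι T0
  refine ⟨t, ?_⟩
  have hS : Frob (S0 ^ k) (P3 l i ^ k) := hS0.pow k
  have hT : Inert (T0 ^ k') := hT0.pow k'
  have hrel := hC.rel hcont hpl (not_dvd_Q3 i) hS hT hs ht
  -- the value of `a` at `t`
  have hat : a t = c * (alX l X t : ℚ_[l]) := ha t fun Y hY =>
    sm_inert hpl (fun j => not_dvd_B3 Y (Or.inr hY)) ht hT
  have hb : (rh T0) (ι ((B3 l X i : ℕ) : AlgebraicClosure F)) =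
      ι ((B3 l X i : ℕ) : AlgebraicClosure F) := by
    rw [map_natCast, map_natCast]
  have ha1 : kap l (B3 l X i) t = k' * kum l (fun n => ι (zF F l n))
      (fun n => ι (rF F l (B3 l X i) n)) (rh T0) := by
    rw [kap_compat hPR0 ht]
    exact kum_pow hz hr hpl hT0 hb k'
  have ha2 : ‖kum l (fun n => ι (zF F l n)) (fun n => ι (rF F l (B3 l X i) n)) (rh T0)‖ = 1 :=
    kum_tame hz hr hb hT0'
  have ha3 : alX l X t = (l : ℤ_[l]) ^ i * kap l (B3 l X i) t := by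
    rw [alX, sm]
    refine tsum_eq_single i fun j hj => ?_
    rw [kap_inert hpl ht hT (not_dvd_B3 X (Or.inl hj.symm)), mul_zero]
  have ha4 : ‖(alX l X t : ℚ_[l])‖ = (l : ℝ) ^ (-i : ℤ) * ‖(k' : ℚ_[l])‖ := by
    rw [← PadicInt.norm_def, ha3, ha1, norm_mul, norm_mul, ha2, mul_one, PadicInt.norm_p_pow]
    rfl
  -- the value of `be` at `s`
  have hq1 : 1 < P3 l i ^ k := Nat.one_lt_pow hk0.ne' hp.out.one_lt
  have hdvd : l ^ m3 l i ∣ P3 l i ^ k - 1 := by
    refine (order_dvd (P3_prime i) (P3_order i)).trans ?_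
    have := Nat.sub_dvd_pow_sub_pow (P3 l i) 1 k
    rwa [one_pow] at this
  have hb0 := be_frob i hq1 hdvd hS hs
  have hb1 : (l : ℝ) ^ (2 * i + 1) * ‖((P3 l i ^ k : ℕ) : ℤ_[l]) - 1‖ ≤ ‖be l s‖ := by
    refine le_trans ?_ hb0
    have h1 : (l : ℝ) ^ (2 * i + 1) ≤ (l : ℝ) ^ m3 l i := pow_le_pow_right₀ hl1 (m3_ge i)
    gcongr
  have hnk : (1 : ℝ) ≤ Module.finrank ℚ F * ‖(k' : ℚ_[l])‖ := by
    have h1 : ((k' : ℝ))⁻¹ ≤ ‖(k' : ℚ_[l])‖ := norm_natCast_ge hk0'.ne'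
    have h2 : (k' : ℝ) ≤ Module.finrank ℚ F := by exact_mod_cast hkD'
    have h3 : (0 : ℝ) < k' := by exact_mod_cast hk0'
    calc (1 : ℝ) = k' * (k' : ℝ)⁻¹ := (mul_inv_cancel₀ h3.ne').symm
      _ ≤ Module.finrank ℚ F * ‖(k' : ℚ_[l])‖ := by gcongr
  have hqn : (0 : ℝ) < ‖((P3 l i ^ k : ℕ) : ℤ_[l]) - 1‖ := by
    rw [norm_pos_iff, sub_ne_zero]
    intro h
    have h2 : (((P3 l i ^ k : ℕ) : ℤ_[l])) = ((1 : ℕ) : ℤ_[l]) := by rw [h, Nat.cast_one]
    exact hq1.ne' (Nat.cast_injective h2)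
  have hn := congrArg norm hrel
  rw [hat, norm_mul, norm_mul, norm_mul, ha4] at hn
  have hn2 : ‖(1 : ℚ_[l]) - ((P3 l i ^ k : ℕ) : ℚ_[l])‖ = ‖((P3 l i ^ k : ℕ) : ℤ_[l]) - 1‖ := by
    rw [norm_sub_rev, PadicInt.norm_def]
    push_cast
    rfl
  rw [hn2, ← PadicInt.norm_def] at hn
  have hkey : (l : ℝ) ^ (i + 1) * ‖c‖ * ‖((P3 l i ^ k : ℕ) : ℤ_[l]) - 1‖ ≤
      (Module.finrank ℚ F * ‖C t‖) * ‖((P3 l i ^ k : ℕ) : ℤ_[l]) - 1‖ := by
    rw [mul_assoc (Module.finrank ℚ F : ℝ), hn]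
    have e1 : (l : ℝ) ^ (i + 1) * ‖c‖ * ‖((P3 l i ^ k : ℕ) : ℤ_[l]) - 1‖ =
        1 * ‖c‖ * ((l : ℝ) ^ (-i : ℤ) *
          ((l : ℝ) ^ (2 * i + 1) * ‖((P3 l i ^ k : ℕ) : ℤ_[l]) - 1‖)) := by
      have e3 : (l : ℝ) ^ (i + 1) = (l : ℝ) ^ (-i : ℤ) * (l : ℝ) ^ (2 * i + 1) := by
        rw [← zpow_natCast, ← zpow_natCast, ← zpow_add₀ hl0.ne']
        congr 1
        push_cast
        ring
      rw [e3]
      ring
    have e2 : (Module.finrank ℚ F : ℝ) *
        (‖c‖ * ((l : ℝ) ^ (-i : ℤ) * ‖(k' : ℚ_[l])‖) * ‖be l s‖) =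
        (Module.finrank ℚ F * ‖(k' : ℚ_[l])‖) * ‖c‖ * ((l : ℝ) ^ (-i : ℤ) * ‖be l s‖) := by ring
    rw [e1, e2]
    gcongr
  exact le_of_mul_le_mul_right hkey hqn

/-! ### An almost disjoint family of sets -/

/-- the code of the beginning of a sequence -/
def code (x : ℕ → Bool) (n : ℕ) : ℕ := Encodable.encode ((List.range n).map x)

theorem code_eq {x y : ℕ → Bool} {n m : ℕ} (h : code x n = code y m) :
    n = m ∧ ∀ j < n, x j = y j := by
  have h1 := Encodable.encode_injective h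
  have h2 : n = m := by
    have := congrArg List.length h1
    simpa using this
  subst h2
  refine ⟨rfl, fun j hj => ?_⟩
  exact (List.map_inj_left.1 h1) j (List.mem_range.2 hj)

/-- the set which belongs to a sequence -/
def XX (x : ℕ → Bool) : Set ℕ := Set.range (code x)

theorem exists_large (s : Finset (ℕ → Bool)) (x : ℕ → Bool) (N : ℕ) :
    ∃ i, N ≤ i ∧ i ∈ XX x ∧ ∀ y ∈ s, y ≠ x → i ∉ XX y := by
  have hinj : Function.Injective (code x) := fun n m h => (code_eq h).1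
  have ht : Filter.Tendsto (code x) Filter.atTop Filter.atTop := by
    have := hinj.tendsto_cofinite
    rwa [Nat.cofinite_eq_atTop] at this
  have h1 : ∀ y : ℕ → Bool, ∃ k, y ≠ x → x k ≠ y k := by
    intro y
    by_cases hy : y = x
    · exact ⟨0, fun h => absurd hy h⟩
    · obtain ⟨k, hk⟩ := Function.ne_iff.1 hy
      exact ⟨k, fun _ => hk.symm⟩
  choose k hk using h1
  obtain ⟨n, hn, hn'⟩ := ((Filter.tendsto_atTop.1 ht N).and
    (Filter.eventually_gt_atTop (s.sup k))).exists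
  refine ⟨code x n, hn, ⟨n, rfl⟩, fun y hy hyx => ?_⟩
  rintro ⟨m, hm⟩
  have h2 := code_eq hm.symm
  exact hk y hyx (h2.2 (k y) ((Finset.le_sup hy).trans_lt hn'))

/-- There is no continuous cochain for a nontrivial linear combination of the cocycles. -/
theorem no_function' {s : Finset (ℕ → Bool)} {c : (ℕ → Bool) → ℚ_[l]} {x : ℕ → Bool} (hx : x ∈ s)
    (hcx : c x ≠ 0) (hC : IsCo (fun t : AbsGal F => ∑ y ∈ s, c y * (alX l (XX y) t : ℚ_[l])) C)
    (hcont : Continuous C) : False := by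
  have hl1 : (1 : ℝ) < l := by exact_mod_cast hl.out.one_lt
  have hc0 : 0 < ‖c x‖ := norm_pos_iff.2 hcx
  obtain ⟨B, hB⟩ := (isCompact_range (continuous_norm.comp hcont)).bddAbove
  have hB' : ∀ t, ‖C t‖ ≤ B := fun t => hB ⟨t, rfl⟩
  obtain ⟨n, hn⟩ := pow_unbounded_of_one_lt (Module.finrank ℚ F * B / ‖c x‖) hl1
  obtain ⟨i, hi1, hi2, hi3⟩ := exists_large s x n
  obtain ⟨t, ht⟩ := core_bound' hC hcont hi2 (c := c x) (by
    intro t hY
    change ∑ y ∈ s, c y * (alX l (XX y) t : ℚ_[l]) = _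
    refine Finset.sum_eq_single_of_mem x hx fun y hy hyx => ?_
    rw [hY _ (hi3 y hy hyx), PadicInt.coe_zero, mul_zero])
  rw [div_lt_iff₀ hc0] at hn
  have h1 : (l : ℝ) ^ n * ‖c x‖ ≤ (l : ℝ) ^ (i + 1) * ‖c x‖ := by
    have : (l : ℝ) ^ n ≤ (l : ℝ) ^ (i + 1) := pow_le_pow_right₀ hl1.le (by omega)
    gcongr
  have h2 : (Module.finrank ℚ F : ℝ) * ‖C t‖ ≤ Module.finrank ℚ F * B := by
    gcongr
    exact hB' t
  linarith

end Pool.Agent.H89.CD
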