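import Mathlib
import Pool.Graph.R_pool_sql_team_seeded_63374d34.N491.CD.Seq

/-!
# Short exact sequences in abelian categories of `l`-adic representations
-/

set_option autoImplicit false
set_option linter.unusedSectionVars false
set_option maxHeartbeats 1000000

open NumberField CategoryTheory Polynomial Limits
open Pool.Agent.N491.CD hiding comp_zero_apply shortExact_of ShortExact_inj ShortExact_surj ShortExact_exact prop_ExtT prop_Tate QQ EE inc pro inc_pro shortExact_EE

namespace Pool.Agent.H89.CD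

variable {F : Type} [Field F] [NumberField F] {l : ℕ} [hl : Fact l.Prime]

/-- On the quotient `W / W'` of two subspaces `W' ≤ W` the group acts as on `ℚ_l(n)`. -/
def ActsAs {V : Type} [AddCommGroup V] [Module ℚ_[l] V]
    (ρ : Representation ℚ_[l] (AbsGal F) V) (n : ℤ) (W' W : Submodule ℚ_[l] V) : Prop :=
  ∀ g, ∀ x ∈ W, ρ g x - chi l g ^ n • x ∈ W'

/-- The representation `ρ` is an extension of a sum of copies of `ℚ_l(n)` by a sum of copies of
`ℚ_l(n + 1)`, for some integer `n`: the latter is the subspace `L`. -/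
def IsTwoStep {V : Type} [AddCommGroup V] [Module ℚ_[l] V]
    (ρ : Representation ℚ_[l] (AbsGal F) V) : Prop :=
  ∃ (n : ℤ) (L : Submodule ℚ_[l] V), ActsAs ρ (n + 1) ⊥ L ∧ ActsAs ρ n L ⊤

/-- The `l`-adic representations which are extensions of a sum of copies of `ℚ_l(n)` by a sum of copies
of `ℚ_l(n + 1)`, for some integer `n`, and which are direct sums of representations `ℚ_l(m)` at all
places above `l`. -/
def IsBasic (V : Reps F l) : Prop := IsLadic V.ρ ∧ IsLocallyTate V.ρ ∧ IsTwoStep V.ρ

/-- Hypotheses on a class `P` of `l`-adic representations: it contains zero, it is closed under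
subobjects, quotients and finite direct sums, and it contains all `l`-adic representations which are
extensions of a sum of copies of `ℚ_l(n)` by a sum of copies of `ℚ_l(n + 1)`, for some integer `n`, and
which are direct sums of representations `ℚ_l(m)` at all places above `l`. -/
class IsGood (P : ObjectProperty (Reps F l)) : Prop extends
    P.ContainsZero, P.IsClosedUnderSubobjects, P.IsClosedUnderQuotients,
    P.IsClosedUnderFiniteProducts where
  ladic : ∀ V : Reps F l, P V → IsLadic V.ρ
  tate : ∀ V : Reps F l, IsBasic V → P V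

theorem twoStep_of {V : Reps F l} {n : ℤ} (L : Submodule ℚ_[l] V)
    (hL1 : ∀ g, ∀ x ∈ L, V.ρ g x = chi l g ^ (n + 1) • x)
    (hL2 : ∀ g x, V.ρ g x - chi l g ^ n • x ∈ L) : IsTwoStep V.ρ :=
  ⟨n, L, fun g x hx => by rw [hL1 g x hx, sub_self]; exact Submodule.zero_mem _,
    fun g x _ => hL2 g x⟩

theorem twoStep_elim {V : Reps F l} (h : IsTwoStep V.ρ) : ∃ (n : ℤ) (L : Submodule ℚ_[l] V),
    (∀ g, ∀ x ∈ L, V.ρ g x = chi l g ^ (n + 1) • x) ∧ ∀ g x, V.ρ g x - chi l g ^ n • x ∈ L := by
  obtain ⟨n, L, h1, h2⟩ := h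
  exact ⟨n, L, fun g x hx => sub_eq_zero.1 ((Submodule.mem_bot _).1 (h1 g x hx)),
    fun g x => h2 g x trivial⟩

theorem twoStep_ExtT {a : AbsGal F → ℚ_[l]} (ha : IsCoc a) (n : ℤ) :
    IsTwoStep (ExtT ha n).ρ := by
  let L : Submodule ℚ_[l] (ℚ_[l] × ℚ_[l]) := LinearMap.ker (LinearMap.snd ℚ_[l] ℚ_[l] ℚ_[l])
  refine twoStep_of (V := ExtT ha n) (n := n) L (fun g x hx => ?_) (fun g x => ?_)
  · have hx' : (x : ℚ_[l] × ℚ_[l]).2 = 0 := hx
    refine (ExtT_apply ha n g x).trans ?_
    refine Prod.ext ?_ ?_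
    · change chi l g ^ (n + 1) * (x : ℚ_[l] × ℚ_[l]).1 +
        chi l g ^ n * a g * (x : ℚ_[l] × ℚ_[l]).2 = chi l g ^ (n + 1) * (x : ℚ_[l] × ℚ_[l]).1
      rw [hx', mul_zero, add_zero]
    · change chi l g ^ n * (x : ℚ_[l] × ℚ_[l]).2 = chi l g ^ (n + 1) * (x : ℚ_[l] × ℚ_[l]).2
      rw [hx', mul_zero, mul_zero]
  · change chi l g ^ n * (x : ℚ_[l] × ℚ_[l]).2 - chi l g ^ n * (x : ℚ_[l] × ℚ_[l]).2 = 0
    rw [sub_self]

variable {P : ObjectProperty (Reps F l)} [IsGood P]

variable (P) in
noncomputable instance abP : Abelian P.FullSubcategory := inferInstance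

variable (P) in
noncomputable def linP : Linear ℚ_[l] P.FullSubcategory := inferInstance

section exact

variable {A B C : P.FullSubcategory} {f : A ⟶ B} {g : B ⟶ C} {w : f ≫ g = 0}

theorem comp_zero_apply (w : f ≫ g = 0) (x : A.obj) : g.hom.hom (f.hom.hom x) = 0 := by
  have h1 : (f ≫ g).hom.hom x = (0 : A ⟶ C).hom.hom x := by rw [w]
  exact h1

theorem shortExact_of (hf : Function.Injective f.hom.hom) (hg : Function.Surjective g.hom.hom)
    (h : ∀ b : B.obj, g.hom.hom b = 0 → ∃ a : A.obj, f.hom.hom a = b) :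
    (ShortComplex.mk f g w).ShortExact := by
  have hmono : Mono f := by
    have h1 : Mono (P.ι.map f) := (Rep.mono_iff_injective _).2 hf
    exact P.ι.mono_of_mono_map h1
  have hepi : Epi g := by
    have h1 : Epi (P.ι.map g) := (Rep.epi_iff_surjective _).2 hg
    exact P.ι.epi_of_epi_map h1
  have hlift : ∀ (K : P.FullSubcategory) (k : K ⟶ B), k ≫ g = 0 → ∃ t : K ⟶ A, t ≫ f = k := by
    intro K k hk
    let e := LinearEquiv.ofInjective f.hom.hom.toLinearMap hf
    have hr : ∀ x, k.hom.hom.toLinearMap x ∈ LinearMap.range f.hom.hom.toLinearMap := fun x =>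
      h _ (comp_zero_apply hk x)
    let t0 : K.obj →ₗ[ℚ_[l]] A.obj :=
      e.symm.toLinearMap.comp (k.hom.hom.toLinearMap.codRestrict _ hr)
    have ht0 : ∀ x, f.hom.hom (t0 x) = k.hom.hom x := by
      intro x
      have h1 : (e (e.symm ⟨_, hr x⟩) : B.obj) = k.hom.hom x := by
        rw [LinearEquiv.apply_symm_apply]
        rfl
      exact h1
    refine ⟨ObjectProperty.homMk (Rep.ofHom ⟨t0, fun g => ?_⟩), ?_⟩
    · refine LinearMap.ext fun x => hf ?_
      change f.hom.hom (t0 (K.obj.ρ g x)) = f.hom.hom (A.obj.ρ g (t0 x))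
      rw [ht0, Rep.hom_comm_apply, Rep.hom_comm_apply, ht0]
    · apply ObjectProperty.hom_ext
      apply Rep.hom_ext
      ext x
      exact ht0 x
  choose t ht using hlift
  exact
    { exact := ShortComplex.exact_of_f_is_kernel _ (KernelFork.IsLimit.ofι f w
        (fun k hk => t _ k hk) (fun k hk => ht _ k hk) (fun k hk m hm => by
          rw [← cancel_mono f, hm]
          exact (ht _ k hk).symm)) }

theorem ShortExact_inj (h : (ShortComplex.mk f g w).ShortExact) : Function.Injective f.hom.hom := by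
  have h1 : P.ι.PreservesMonomorphisms :=
    P.preservesMonomorphisms_ι_of_isNormalEpiCategory
  have h2 : Mono f := h.mono_f
  have h3 : Mono (P.ι.map f) := inferInstance
  exact (Rep.mono_iff_injective _).1 h3

theorem ShortExact_surj (h : (ShortComplex.mk f g w).ShortExact) :
    Function.Surjective g.hom.hom := by
  have h1 : P.ι.PreservesEpimorphisms :=
    P.preservesEpimorphisms_ι_of_isNormalMonoCategory
  have h2 : Epi g := h.epi_g
  have h3 : Epi (P.ι.map g) := inferInstance
  exact (Rep.epi_iff_surjective _).1 h3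

theorem ShortExact_exact (h : (ShortComplex.mk f g w).ShortExact) (b : B.obj)
    (hb : g.hom.hom b = 0) : ∃ a : A.obj, f.hom.hom a = b := by
  have h2 : Mono f := h.mono_f
  let W : Submodule ℚ_[l] B.obj := LinearMap.ker g.hom.hom.toLinearMap
  have hW : ∀ s, W ≤ W.comap (B.obj.ρ s) := by
    intro s x hx
    have h1 : g.hom.hom x = 0 := hx
    change g.hom.hom (B.obj.ρ s x) = 0
    rw [Rep.hom_comm_apply, h1, map_zero]
  have hm : Mono (Rep.subtype B.obj W hW) := (Rep.mono_iff_injective _).2 Subtype.val_injective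
  let K : P.FullSubcategory := ⟨_, P.prop_of_mono (Rep.subtype B.obj W hW) B.property⟩
  let k : K ⟶ B := ObjectProperty.homMk (Rep.subtype B.obj W hW)
  have hk : k ≫ g = 0 := by
    apply ObjectProperty.hom_ext
    apply Rep.hom_ext
    ext x
    exact x.2
  have hlim : IsLimit (KernelFork.ofι f w) := h.exact.fIsKernel
  obtain ⟨t, ht⟩ := KernelFork.IsLimit.lift' hlim k hk
  refine ⟨t.hom.hom (⟨b, hb⟩ : W), ?_⟩
  have h3 : (t ≫ f).hom.hom (⟨b, hb⟩ : W) = k.hom.hom (⟨b, hb⟩ : W) := by
    have : t ≫ f = k := ht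
    rw [this]
  exact h3

end exact

section objects

variable {a : AbsGal F → ℚ_[l]} (ha : IsCoc a) (hs : IsSplit a) (n : ℤ)

variable (P) in
include hs in
theorem prop_ExtT : P (ExtT ha n) :=
  IsGood.tate _ ⟨ladic_ExtT ha n, locallyTate_ExtT ha n hs, twoStep_ExtT ha n⟩

variable (P) in
theorem prop_Tate : P (Tate F l n) := by
  have h : Epi (proj (isCoc_alp (F := F) (l := l)) n) :=
    (Rep.epi_iff_surjective _).2 fun x => ⟨((0 : ℚ_[l]), x), rfl⟩
  exact P.prop_of_epi (proj (isCoc_alp (F := F) (l := l)) n)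
    (prop_ExtT P _ isSplit_alp n)

variable (P) in
/-- `ℚ_l(n)` as an object of the category of mixed representations in the class `𝒜` -/
noncomputable def QQ (n : ℤ) : P.FullSubcategory := ⟨Tate F l n, prop_Tate P n⟩

variable (P) in
/-- the extension as an object of the category of mixed representations in the class `𝒜` -/
noncomputable def EE : P.FullSubcategory := ⟨ExtT ha n, prop_ExtT P ha hs n⟩

variable (P) in
noncomputable def inc : QQ P (n + 1) ⟶ EE P ha hs n := ObjectProperty.homMk (incl ha n)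

variable (P) in
noncomputable def pro : EE P ha hs n ⟶ QQ P n := ObjectProperty.homMk (proj ha n)

variable (P) in
theorem inc_pro : inc P ha hs n ≫ pro P ha hs n = 0 := by
  apply ObjectProperty.hom_ext
  apply Rep.hom_ext
  refine Representation.IntertwiningMap.ext (LinearMap.ext fun x => ?_)
  rfl

variable (P) in
theorem shortExact_EE :
    (ShortComplex.mk (inc P ha hs n) (pro P ha hs n) (inc_pro P ha hs n)).ShortExact := by
  refine shortExact_of ?_ ?_ ?_
  · intro x y h
    exact congrArg Prod.fst h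
  · intro x
    exact ⟨((0 : ℚ_[l]), x), rfl⟩
  · intro b hb
    have hb' : (b : ℚ_[l] × ℚ_[l]).2 = 0 := hb
    refine ⟨(b : ℚ_[l] × ℚ_[l]).1, ?_⟩
    exact Prod.ext rfl hb'.symm

end objects

end Pool.Agent.H89.CD
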