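import Mathlib
import Pool.Agent.H89.CD.Seq2

/-!
# The class of an extension depends linearly on the cocycle
-/

set_option autoImplicit false
set_option linter.unusedSectionVars false
set_option maxHeartbeats 1000000

universe w

open NumberField CategoryTheory Polynomial Limits Abelian
open Pool.Agent.N491.CD hiding comp_zero_apply shortExact_of ShortExact_inj ShortExact_surj ShortExact_exact prop_ExtT prop_Tate QQ EE inc pro inc_pro shortExact_EE

namespace Pool.Agent.H89.CD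

variable {F : Type} [Field F] [NumberField F] {l : ℕ} [hl : Fact l.Prime]

variable (F l) in
/-- the space of the cocycles which are coboundaries on the decomposition groups above `l` -/
def Zs : Submodule ℚ_[l] (AbsGal F → ℚ_[l]) where
  carrier := {a | IsCoc a ∧ IsSplit a}
  add_mem' := by
    rintro a b ⟨ha, ha'⟩ ⟨hb, hb'⟩
    refine ⟨⟨fun g h => ?_, ha.cont.add hb.cont⟩, fun ι => ?_⟩
    · change a (g * h) + b (g * h) = a g + b g + chi l g * (a h + b h)
      rw [ha.mul, hb.mul]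
      ring
    · obtain ⟨c, hc⟩ := ha' ι
      obtain ⟨d, hd⟩ := hb' ι
      refine ⟨c + d, fun σ hσ => ?_⟩
      change a σ + b σ = _
      rw [hc σ hσ, hd σ hσ]
      ring
  zero_mem' := by
    refine ⟨⟨fun g h => ?_, continuous_const⟩, fun ι => ⟨0, fun σ _ => ?_⟩⟩
    · change (0 : ℚ_[l]) = 0 + chi l g * 0
      ring
    · change (0 : ℚ_[l]) = _
      ring
  smul_mem' := by
    rintro r a ⟨ha, ha'⟩
    refine ⟨⟨fun g h => ?_, continuous_const.mul ha.cont⟩, fun ι => ?_⟩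
    · change r * a (g * h) = r * a g + chi l g * (r * a h)
      rw [ha.mul]
      ring
    · obtain ⟨c, hc⟩ := ha' ι
      refine ⟨r * c, fun σ hσ => ?_⟩
      change r * a σ = _
      rw [hc σ hσ]
      ring

/-- an extension of `ℚ_l(n)` by the square of `ℚ_l(n + 1)` -/
noncomputable def uRep {a b : AbsGal F → ℚ_[l]} (ha : IsCoc a) (hb : IsCoc b) (n : ℤ) :
    Representation ℚ_[l] (AbsGal F) ((ℚ_[l] × ℚ_[l]) × ℚ_[l]) where
  toFun g := LinearMap.prod
    (LinearMap.prod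
      ((chi l g ^ (n + 1)) • (LinearMap.fst _ _ _ ∘ₗ LinearMap.fst _ _ _) +
        (chi l g ^ n * a g) • LinearMap.snd _ _ _)
      ((chi l g ^ (n + 1)) • (LinearMap.snd _ _ _ ∘ₗ LinearMap.fst _ _ _) +
        (chi l g ^ n * b g) • LinearMap.snd _ _ _))
    ((chi l g ^ n) • LinearMap.snd _ _ _)
  map_one' := by
    refine LinearMap.ext fun x => ?_
    rw [chi_one, ha.one, hb.one, one_zpow, one_zpow]
    simp
  map_mul' g h := by
    refine LinearMap.ext fun x => ?_
    rw [chi_mul, mul_zpow, mul_zpow, ha.mul, hb.mul]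
    have h1 : chi l g ^ (n + 1) = chi l g ^ n * chi l g := zpow_split _ (chi_ne_zero g) n
    refine Prod.ext (Prod.ext ?_ ?_) ?_
    · change chi l g ^ (n + 1) * chi l h ^ (n + 1) * x.1.1 +
        chi l g ^ n * chi l h ^ n * (a g + chi l g * a h) * x.2 =
        chi l g ^ (n + 1) * (chi l h ^ (n + 1) * x.1.1 + chi l h ^ n * a h * x.2) +
        chi l g ^ n * a g * (chi l h ^ n * x.2)
      rw [h1]
      ring
    · change chi l g ^ (n + 1) * chi l h ^ (n + 1) * x.1.2 +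
        chi l g ^ n * chi l h ^ n * (b g + chi l g * b h) * x.2 =
        chi l g ^ (n + 1) * (chi l h ^ (n + 1) * x.1.2 + chi l h ^ n * b h * x.2) +
        chi l g ^ n * b g * (chi l h ^ n * x.2)
      rw [h1]
      ring
    · change chi l g ^ n * chi l h ^ n * x.2 = chi l g ^ n * (chi l h ^ n * x.2)
      ring

variable (F l) in
/-- the square of `ℚ_l(n)` -/
noncomputable def sqRep (n : ℤ) : Representation ℚ_[l] (AbsGal F) (ℚ_[l] × ℚ_[l]) where
  toFun g := (chi l g ^ n) • LinearMap.id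
  map_one' := by
    rw [chi_one, one_zpow, one_smul]
    rfl
  map_mul' g h := by
    refine LinearMap.ext fun x => ?_
    change chi l (g * h) ^ n • x = chi l g ^ n • (chi l h ^ n • x)
    rw [chi_mul, mul_zpow, mul_smul]

section objects

variable {a b : AbsGal F → ℚ_[l]} (ha : IsCoc a) (hb : IsCoc b) (hsa : IsSplit a) (hsb : IsSplit b)
  (n : ℤ) (P : ObjectProperty (Reps F l)) [IsGood P]

noncomputable def uFst : (Rep.of (uRep ha hb n) : Reps F l) ⟶ ExtT ha n :=
  Rep.ofHom ⟨LinearMap.prod (LinearMap.fst ℚ_[l] ℚ_[l] ℚ_[l] ∘ₗ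
    LinearMap.fst ℚ_[l] (ℚ_[l] × ℚ_[l]) ℚ_[l]) (LinearMap.snd ℚ_[l] (ℚ_[l] × ℚ_[l]) ℚ_[l]),
    fun _ => LinearMap.ext fun _ => rfl⟩

noncomputable def uSnd : (Rep.of (uRep ha hb n) : Reps F l) ⟶ ExtT hb n :=
  Rep.ofHom ⟨LinearMap.prod (LinearMap.snd ℚ_[l] ℚ_[l] ℚ_[l] ∘ₗ
    LinearMap.fst ℚ_[l] (ℚ_[l] × ℚ_[l]) ℚ_[l]) (LinearMap.snd ℚ_[l] (ℚ_[l] × ℚ_[l]) ℚ_[l]),
    fun _ => LinearMap.ext fun _ => rfl⟩

noncomputable def uInc : (Rep.of (sqRep F l (n + 1)) : Reps F l) ⟶ Rep.of (uRep ha hb n) :=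
  Rep.ofHom ⟨LinearMap.inl ℚ_[l] (ℚ_[l] × ℚ_[l]) ℚ_[l], fun g => LinearMap.ext fun x => by
    refine Prod.ext (Prod.ext ?_ ?_) ?_
    · change chi l g ^ (n + 1) * x.1 = chi l g ^ (n + 1) * x.1 + chi l g ^ n * a g * 0
      ring
    · change chi l g ^ (n + 1) * x.2 = chi l g ^ (n + 1) * x.2 + chi l g ^ n * b g * 0
      ring
    · change (0 : ℚ_[l]) = chi l g ^ n * 0
      ring⟩

noncomputable def uPro : (Rep.of (uRep ha hb n) : Reps F l) ⟶ Tate F l n :=
  Rep.ofHom ⟨LinearMap.snd ℚ_[l] (ℚ_[l] × ℚ_[l]) ℚ_[l], fun _ => LinearMap.ext fun _ => rfl⟩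

include hsa hsb in
theorem prop_U : P (Rep.of (uRep ha hb n) : Reps F l) := by
  have hm : Mono (prod.lift (uFst ha hb n) (uSnd ha hb n)) := by
    refine ⟨fun {K} s t hst => ?_⟩
    have h1 : s ≫ uFst ha hb n = t ≫ uFst ha hb n := by
      rw [← prod.lift_fst (uFst ha hb n) (uSnd ha hb n), ← Category.assoc, hst, Category.assoc]
    have h2 : s ≫ uSnd ha hb n = t ≫ uSnd ha hb n := by
      rw [← prod.lift_snd (uFst ha hb n) (uSnd ha hb n), ← Category.assoc, hst, Category.assoc]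
    apply Rep.hom_ext
    refine Representation.IntertwiningMap.ext (LinearMap.ext fun x => ?_)
    have h3 : (s ≫ uFst ha hb n).hom x = (t ≫ uFst ha hb n).hom x := by rw [h1]
    have h4 : (s ≫ uSnd ha hb n).hom x = (t ≫ uSnd ha hb n).hom x := by rw [h2]
    have h5 := congrArg (fun z : ℚ_[l] × ℚ_[l] => z.1) h3
    have h6 := congrArg (fun z : ℚ_[l] × ℚ_[l] => z.1) h4
    have h7 := congrArg (fun z : ℚ_[l] × ℚ_[l] => z.2) h3
    exact Prod.ext (Prod.ext h5 h6) h7
  exact P.prop_of_mono (prod.lift (uFst ha hb n) (uSnd ha hb n))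
    (P.prop_prod _ _ (prop_ExtT P ha hsa n) (prop_ExtT P hb hsb n))

include ha hb hsa hsb in
theorem prop_sq : P (Rep.of (sqRep F l (n + 1)) : Reps F l) := by
  have hm : Mono (uInc ha hb n) := (Rep.mono_iff_injective _).2 fun x y h => congrArg Prod.fst h
  exact P.prop_of_mono (uInc ha hb n) (prop_U ha hb hsa hsb n P)

/-- the extension of `ℚ_l(n)` by the square of `ℚ_l(n + 1)` -/
noncomputable def UU : P.FullSubcategory := ⟨Rep.of (uRep ha hb n), prop_U ha hb hsa hsb n P⟩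

noncomputable def SS : P.FullSubcategory := ⟨Rep.of (sqRep F l (n + 1)), prop_sq ha hb hsa hsb n P⟩

noncomputable def Uinc : SS ha hb hsa hsb n P ⟶ UU ha hb hsa hsb n P :=
  ObjectProperty.homMk (uInc ha hb n)

noncomputable def Upro : UU ha hb hsa hsb n P ⟶ QQ P n := ObjectProperty.homMk (uPro ha hb n)

theorem Uinc_Upro : Uinc ha hb hsa hsb n P ≫ Upro ha hb hsa hsb n P = 0 := by
  apply ObjectProperty.hom_ext
  apply Rep.hom_ext
  ext x
  rfl

theorem shortExact_UU : (ShortComplex.mk (Uinc ha hb hsa hsb n P) (Upro ha hb hsa hsb n P)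
    (Uinc_Upro ha hb hsa hsb n P)).ShortExact := by
  refine shortExact_of ?_ ?_ ?_
  · intro x y h
    exact congrArg Prod.fst h
  · intro x
    exact ⟨(((0 : ℚ_[l]), (0 : ℚ_[l])), x), rfl⟩
  · intro b hb
    have hb' : (b : (ℚ_[l] × ℚ_[l]) × ℚ_[l]).2 = 0 := hb
    refine ⟨(b : (ℚ_[l] × ℚ_[l]) × ℚ_[l]).1, ?_⟩
    exact Prod.ext rfl hb'.symm

/-- a linear functional on the square of `ℚ_l(n + 1)` -/
noncomputable def Sfun (φ : (ℚ_[l] × ℚ_[l]) →ₗ[ℚ_[l]] ℚ_[l]) :
    SS ha hb hsa hsb n P ⟶ QQ P (n + 1) :=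
  ObjectProperty.homMk (Rep.ofHom ⟨φ, fun g => LinearMap.ext fun x => by
    change φ (chi l g ^ (n + 1) • x) = chi l g ^ (n + 1) * φ x
    rw [map_smul, smul_eq_mul]⟩)

theorem Sfun_add (φ ψ : (ℚ_[l] × ℚ_[l]) →ₗ[ℚ_[l]] ℚ_[l]) :
    Sfun ha hb hsa hsb n P (φ + ψ) = Sfun ha hb hsa hsb n P φ + Sfun ha hb hsa hsb n P ψ := by
  apply ObjectProperty.hom_ext
  apply Rep.hom_ext
  ext x
  rfl

/-- the push-out of the extension along a linear functional -/
theorem UU_comp [HasExt.{w} (P.FullSubcategory)] (φ : (ℚ_[l] × ℚ_[l]) →ₗ[ℚ_[l]] ℚ_[l])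
    {c : AbsGal F → ℚ_[l]} (hc : IsCoc c) (hsc : IsSplit c)
    (h : ∀ g, c g = φ (a g, b g)) :
    (shortExact_UU ha hb hsa hsb n P).extClass.comp
      (Ext.mk₀ (Sfun ha hb hsa hsb n P φ)) (add_zero 1) =
      ((shortExact_EE P hc hsc n).extClass : Ext.{w} (QQ P n) (QQ P (n + 1)) 1) := by
  let τ₂ : UU ha hb hsa hsb n P ⟶ EE P hc hsc n :=
    ObjectProperty.homMk (Rep.ofHom ⟨LinearMap.prodMap φ LinearMap.id, fun g =>
      LinearMap.ext fun x => by
        refine Prod.ext ?_ rfl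
        change φ (chi l g ^ (n + 1) * x.1.1 + chi l g ^ n * a g * x.2,
          chi l g ^ (n + 1) * x.1.2 + chi l g ^ n * b g * x.2) =
          chi l g ^ (n + 1) * φ x.1 + chi l g ^ n * c g * x.2
        have h1 : ((chi l g ^ (n + 1) * x.1.1 + chi l g ^ n * a g * x.2,
          chi l g ^ (n + 1) * x.1.2 + chi l g ^ n * b g * x.2) : ℚ_[l] × ℚ_[l]) =
          chi l g ^ (n + 1) • x.1 + (chi l g ^ n * x.2) • ((a g, b g) : ℚ_[l] × ℚ_[l]) := by
          refine Prod.ext ?_ ?_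
          · change _ = chi l g ^ (n + 1) * x.1.1 + (chi l g ^ n * x.2) * a g
            ring
          · change _ = chi l g ^ (n + 1) * x.1.2 + (chi l g ^ n * x.2) * b g
            ring
        rw [h1, map_add, map_smul, map_smul, ← h, smul_eq_mul, smul_eq_mul]
        ring⟩)
  let f : ShortComplex.mk (Uinc ha hb hsa hsb n P) (Upro ha hb hsa hsb n P)
      (Uinc_Upro ha hb hsa hsb n P) ⟶
      ShortComplex.mk (inc P hc hsc n) (pro P hc hsc n) (inc_pro P hc hsc n) :=
    { τ₁ := Sfun ha hb hsa hsb n P φ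
      τ₂ := τ₂
      τ₃ := 𝟙 _
      comm₁₂ := by
        apply ObjectProperty.hom_ext
        apply Rep.hom_ext
        ext x
        rfl
      comm₂₃ := by
        apply ObjectProperty.hom_ext
        apply Rep.hom_ext
        ext x
        rfl }
  have h2 := ShortComplex.ShortExact.extClass_naturality (shortExact_UU ha hb hsa hsb n P)
    (shortExact_EE P hc hsc n) f
  rw [show f.τ₃ = 𝟙 _ from rfl, Ext.mk₀_id_comp] at h2
  exact h2

theorem ext_add [HasExt.{w} (P.FullSubcategory)] {c : AbsGal F → ℚ_[l]} (hc : IsCoc c) (hsc : IsSplit c)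
    (h : ∀ g, c g = a g + b g) :
    ((shortExact_EE P hc hsc n).extClass : Ext.{w} (QQ P n) (QQ P (n + 1)) 1) =
      (shortExact_EE P ha hsa n).extClass + (shortExact_EE P hb hsb n).extClass := by
  rw [← UU_comp ha hb hsa hsb n P (LinearMap.fst _ _ _ + LinearMap.snd _ _ _) hc hsc h,
    ← UU_comp ha hb hsa hsb n P (LinearMap.fst _ _ _) ha hsa (fun _ => rfl),
    ← UU_comp ha hb hsa hsb n P (LinearMap.snd _ _ _) hb hsb (fun _ => rfl),
    Sfun_add, Ext.mk₀_add, Ext.comp_add]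

theorem ext_smul [HasExt.{w} (P.FullSubcategory)] (r : ℚ_[l]) {c : AbsGal F → ℚ_[l]} (hc : IsCoc c)
    (hsc : IsSplit c) (h : ∀ g, c g = r * a g) :
    ((shortExact_EE P hc hsc n).extClass : Ext.{w} (QQ P n) (QQ P (n + 1)) 1) =
      r • (shortExact_EE P ha hsa n).extClass := by
  let τ₂ : EE P ha hsa n ⟶ EE P hc hsc n :=
    ObjectProperty.homMk (Rep.ofHom ⟨LinearMap.prodMap (r • LinearMap.id) LinearMap.id, fun g =>
      LinearMap.ext fun x => by
        refine Prod.ext ?_ rfl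
        change r * (chi l g ^ (n + 1) * x.1 + chi l g ^ n * a g * x.2) =
          chi l g ^ (n + 1) * (r * x.1) + chi l g ^ n * c g * x.2
        rw [h]
        ring⟩)
  let f : ShortComplex.mk (inc P ha hsa n) (pro P ha hsa n) (inc_pro P ha hsa n) ⟶
      ShortComplex.mk (inc P hc hsc n) (pro P hc hsc n) (inc_pro P hc hsc n) :=
    { τ₁ := r • 𝟙 _
      τ₂ := τ₂
      τ₃ := 𝟙 _
      comm₁₂ := by
        apply ObjectProperty.hom_ext
        apply Rep.hom_ext
        refine Representation.IntertwiningMap.ext (LinearMap.ext fun x => ?_)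
        let x' : ℚ_[l] := x
        change ((r * x', (0 : ℚ_[l])) : ℚ_[l] × ℚ_[l]) = ((r * x', (0 : ℚ_[l])) : ℚ_[l] × ℚ_[l])
        rfl
      comm₂₃ := by
        apply ObjectProperty.hom_ext
        apply Rep.hom_ext
        ext x
        rfl }
  have h2 := ShortComplex.ShortExact.extClass_naturality (shortExact_EE P ha hsa n)
    (shortExact_EE P hc hsc n) f
  rw [show f.τ₃ = 𝟙 _ from rfl, Ext.mk₀_id_comp] at h2
  rw [Ext.smul_eq_comp_mk₀]
  exact h2.symm

/-- The class of the extension, as a linear map on the space of cocycles. -/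
noncomputable def clsL [HasExt.{w} (P.FullSubcategory)] :
    Zs F l →ₗ[ℚ_[l]] Ext.{w} (QQ P n) (QQ P (n + 1)) 1 where
  toFun a := (shortExact_EE P a.2.1 a.2.2 n).extClass
  map_add' a b := ext_add a.2.1 b.2.1 a.2.2 b.2.2 n P _ _ fun _ => rfl
  map_smul' r a := ext_smul a.2.1 a.2.2 n P r _ _ fun _ => rfl

end objects

end Pool.Agent.H89.CD
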