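import Mathlib
import Pool.Graph.R_pool_sql_team_seeded_63374d34.N491.CD.Ext
import Pool.Agent.H89.CD.LinP
import Pool.Agent.H89.CD.Core4

/-!
# The group `Ext ^ 2 (ℚ_l, ℚ_l(2))` in the category of mixed representations is of infinite dimension
-/

set_option autoImplicit false
set_option linter.unusedSectionVars false
set_option maxHeartbeats 1000000

universe w

open NumberField CategoryTheory Polynomial Limits Abelian
open Pool.Agent.N491.CD hiding comp_zero_apply shortExact_of ShortExact_inj ShortExact_surj ShortExact_exact prop_ExtT prop_Tate QQ EE inc pro inc_pro shortExact_EE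

namespace Pool.Agent.H89.CD

variable {F : Type} [Field F] [NumberField F] {l : ℕ} [hl : Fact l.Prime]

theorem isCoc_alX (X : Set ℕ) : IsCoc fun g : AbsGal F => (alX l X g : ℚ_[l]) where
  mul g h := by
    rw [alX_mul, ← coe_chiZ, PadicInt.coe_add, PadicInt.coe_mul]
  cont := continuous_subtype_val.comp (continuous_alX X)

theorem isCoc_be : IsCoc fun g : AbsGal F => (be l g : ℚ_[l]) where
  mul g h := by
    rw [be_mul, ← coe_chiZ, PadicInt.coe_add, PadicInt.coe_mul]
  cont := continuous_subtype_val.comp continuous_be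

theorem isSplit_alX (X : Set ℕ) : IsSplit fun g : AbsGal F => (alX l X g : ℚ_[l]) := by
  intro ι
  obtain ⟨c, hc⟩ := sm_coboundary (F := F) (fun i => (B3_pos (l := l) X i).ne')
    (exists_pow_B3 X) ι
  refine ⟨c, fun σ hσ => ?_⟩
  obtain ⟨g, hg⟩ := hσ
  change ((sm l (B3 l X) σ : ℤ_[l]) : ℚ_[l]) = _
  rw [hc g σ hg, PadicInt.coe_mul, PadicInt.coe_sub, PadicInt.coe_one, coe_chiZ]

theorem isSplit_be : IsSplit fun g : AbsGal F => (be l g : ℚ_[l]) := by
  intro ι
  obtain ⟨c, hc⟩ := sm_coboundary (F := F) (fun i => (Q3_prime (l := l) i).ne_zero)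
    exists_pow_Q3 ι
  refine ⟨c, fun σ hσ => ?_⟩
  obtain ⟨g, hg⟩ := hσ
  change ((sm l (Q3 l) σ : ℤ_[l]) : ℚ_[l]) = _
  rw [hc g σ hg, PadicInt.coe_mul, PadicInt.coe_sub, PadicInt.coe_one, coe_chiZ]

theorem no_blended' {a : AbsGal F → ℚ_[l]} (ha : IsCoc a)
    (hno : ∀ C : AbsGal F → ℚ_[l], IsCo a C → Continuous C → False)
    (V : Reps F l) (hV : IsLadic V.ρ) (e1 e2 e3 : V) (he1 : e1 ≠ 0)
    (h1 : ∀ g, V.ρ g e1 = chi l g ^ 2 • e1)
    (h2 : ∀ g, V.ρ g e2 = chi l g • e2 + (chi l g * (be l g : ℚ_[l])) • e1)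
    (h3 : ∀ g, ∃ c : ℚ_[l], V.ρ g e3 = e3 + a g • e2 + c • e1) : False := by
  choose C hC using h3
  obtain ⟨φ, hφ⟩ : ∃ φ : Module.Dual ℚ_[l] V, φ e1 ≠ 0 := by
    by_contra hcon
    push Not at hcon
    exact he1 ((Module.forall_dual_apply_eq_zero_iff ℚ_[l] e1).1 hcon)
  have hc : Continuous C := by
    have h4 : C = fun g => (φ (V.ρ g e3) - φ e3 - a g * φ e2) * (φ e1)⁻¹ := by
      funext g
      rw [hC g, map_add, map_add, map_smul, map_smul, smul_eq_mul, smul_eq_mul,
        add_sub_right_comm, add_sub_cancel_left, add_sub_cancel_left, mul_assoc,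
        mul_inv_cancel₀ hφ, mul_one]
    rw [h4]
    exact (((hV.continuous e3 φ).sub continuous_const).sub
      (ha.cont.mul continuous_const)).mul continuous_const
  refine hno C (fun g h => ?_) hc
  have h5 : V.ρ (g * h) e3 = V.ρ g (V.ρ h e3) := by
    rw [Rep.ρ_mul, LinearMap.comp_apply]
  rw [hC, hC h, map_add, map_add, map_smul, map_smul, hC g, h2, h1, ha.mul] at h5
  have h6 : (C (g * h) - (C g + a h * (chi l g * (be l g : ℚ_[l])) +
      chi l g ^ 2 * C h)) • e1 = 0 := by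
    rw [sub_smul, sub_eq_zero]
    have h7 : C (g * h) • e1 = (e3 + (a g + chi l g * a h) • e2 +
        C (g * h) • e1) - (e3 + (a g + chi l g * a h) • e2) := by
      rw [add_sub_cancel_left]
    rw [h7, h5]
    module
  exact sub_eq_zero.1 ((smul_eq_zero.1 h6).resolve_right he1)

/-- the twist of a representation -/
noncomputable def twRep (V : Reps F l) (n : ℤ) : Representation ℚ_[l] (AbsGal F) V where
  toFun g := chi l g ^ n • V.ρ g
  map_one' := by
    rw [chi_one, one_zpow, one_smul, map_one]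
  map_mul' g h := by
    refine LinearMap.ext fun x => ?_
    change chi l (g * h) ^ n • V.ρ (g * h) x = chi l g ^ n • V.ρ g (chi l h ^ n • V.ρ h x)
    rw [chi_mul, mul_zpow, map_smul, Rep.ρ_mul, LinearMap.comp_apply, mul_smul]

theorem ladic_twRep {V : Reps F l} (hV : IsLadic V.ρ) (n : ℤ) : IsLadic (twRep V n) where
  finite := hV.finite
  continuous v f := by
    have h : (fun g : AbsGal F => f (twRep V n g v)) = fun g => chi l g ^ n * f (V.ρ g v) := by
      funext g
      change f (chi l g ^ n • V.ρ g v) = _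
      rw [map_smul, smul_eq_mul]
    rw [h]
    exact (continuous_chi_zpow n).mul (hV.continuous v f)

theorem ext_ne_zero' (P : ObjectProperty (Reps F l)) [IsGood P] [HasExt.{w} P.FullSubcategory]
    (n : ℤ) {a : AbsGal F → ℚ_[l]} (ha : IsCoc a) (hsa : IsSplit a)
    (hno : ∀ C : AbsGal F → ℚ_[l], IsCo a C → Continuous C → False) :
    (shortExact_EE P ha hsa n).extClass.comp
      ((shortExact_EE P (isCoc_be (F := F) (l := l)) isSplit_be (n + 1)).extClass :
        Ext.{w} (QQ P (n + 1)) (QQ P (n + 1 + 1)) 1) (rfl : 1 + 1 = 2) ≠ 0 := by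
  intro h
  obtain ⟨V, i, q, wq, ψ, hs, h1, h2⟩ := exists_blended
    (shortExact_EE P ha hsa n)
    (shortExact_EE P (isCoc_be (F := F) (l := l)) isSplit_be (n + 1)) h
  have hψi : ∀ x : (QQ P (n + 1 + 1)).obj,
      ψ.hom.hom ((inc P (isCoc_be (F := F) (l := l)) isSplit_be (n + 1)).hom.hom x) =
        i.hom.hom x := fun x => by
    rw [← h1]
    rfl
  have hqψ : ∀ x : (EE P (isCoc_be (F := F) (l := l)) isSplit_be (n + 1)).obj,
      q.hom.hom (ψ.hom.hom x) = (inc P ha hsa n).hom.hom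
        ((pro P (isCoc_be (F := F) (l := l)) isSplit_be (n + 1)).hom.hom x) := fun x => by
    have h3 : (ψ ≫ q).hom.hom x = (pro P (isCoc_be (F := F) (l := l)) isSplit_be (n + 1) ≫
      inc P ha hsa n).hom.hom x := by rw [h2]
    exact h3
  let o1 : (QQ P (n + 1 + 1) : P.FullSubcategory).obj := (1 : ℚ_[l])
  let b1 : (EE P (isCoc_be (F := F) (l := l)) isSplit_be (n + 1)).obj :=
    ((1 : ℚ_[l]), (0 : ℚ_[l]))
  let b2 : (EE P (isCoc_be (F := F) (l := l)) isSplit_be (n + 1)).obj :=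
    ((0 : ℚ_[l]), (1 : ℚ_[l]))
  let c1 : (EE P ha hsa n).obj := ((1 : ℚ_[l]), (0 : ℚ_[l]))
  let c2 : (EE P ha hsa n).obj := ((0 : ℚ_[l]), (1 : ℚ_[l]))
  obtain ⟨e3, he3⟩ := ShortExact_surj hs c2
  have hi := ShortExact_inj hs
  have he1 : ψ.hom.hom b1 = i.hom.hom o1 := hψi o1
  have he2 : q.hom.hom (ψ.hom.hom b2) = c1 := hqψ b2
  have hz : ∀ g : AbsGal F, chi l g ^ (-n) * chi l g ^ n = 1 := fun g => by
    rw [← zpow_add₀ (chi_ne_zero g), neg_add_cancel, zpow_zero]
  have hz1 : ∀ g : AbsGal F, chi l g ^ (-n) * chi l g ^ (n + 1) = chi l g := fun g => by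
    rw [← zpow_add₀ (chi_ne_zero g), neg_add_cancel_left, zpow_one]
  have hz2 : ∀ g : AbsGal F, chi l g ^ (-n) * chi l g ^ (n + 1 + 1) = chi l g ^ 2 := fun g => by
    rw [← zpow_add₀ (chi_ne_zero g), add_assoc, neg_add_cancel_left,
      show ((1 : ℤ) + 1) = ((2 : ℕ) : ℤ) from rfl, zpow_natCast]
  have hρ : ∀ (g : AbsGal F) (x : V.obj), (Rep.of (twRep V.obj (-n)) : Reps F l).ρ g x =
      chi l g ^ (-n) • V.obj.ρ g x := fun g x => rfl
  refine no_blended' ha hno (Rep.of (twRep V.obj (-n)))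
    (ladic_twRep (IsGood.ladic _ V.property) (-n)) (ψ.hom.hom b1) (ψ.hom.hom b2) e3 ?_ ?_ ?_ ?_
  · rw [he1]
    intro h0
    have h4 : o1 = 0 := hi (h0.trans (map_zero _).symm)
    exact one_ne_zero (α := ℚ_[l]) h4
  · intro g
    refine (hρ g _).trans ?_
    have e : chi l g ^ (-n) • ((EE P (isCoc_be (F := F) (l := l)) isSplit_be (n + 1)).obj.ρ g b1) =
        chi l g ^ 2 • b1 := by
      refine Prod.ext ?_ ?_
      · change chi l g ^ (-n) * (chi l g ^ (n + 1 + 1) * 1 +
          chi l g ^ (n + 1) * (be l g : ℚ_[l]) * 0) = chi l g ^ 2 * 1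
        rw [← hz2 g]
        ring
      · change chi l g ^ (-n) * (chi l g ^ (n + 1) * 0) = chi l g ^ 2 * 0
        ring
    calc chi l g ^ (-n) • V.obj.ρ g (ψ.hom.hom b1)
        = ψ.hom.hom (chi l g ^ (-n) •
          ((EE P (isCoc_be (F := F) (l := l)) isSplit_be (n + 1)).obj.ρ g b1)) := by
          rw [map_smul, Rep.hom_comm_apply]
      _ = ψ.hom.hom (chi l g ^ 2 • b1) := by rw [e]
      _ = chi l g ^ 2 • ψ.hom.hom b1 := map_smul _ _ _
  · intro g
    refine (hρ g _).trans ?_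
    have e : chi l g ^ (-n) • ((EE P (isCoc_be (F := F) (l := l)) isSplit_be (n + 1)).obj.ρ g b2) =
        chi l g • b2 + (chi l g * (be l g : ℚ_[l])) • b1 := by
      refine Prod.ext ?_ ?_
      · change chi l g ^ (-n) * (chi l g ^ (n + 1 + 1) * 0 +
          chi l g ^ (n + 1) * (be l g : ℚ_[l]) * 1) =
          chi l g * 0 + chi l g * (be l g : ℚ_[l]) * 1
        linear_combination (be l g : ℚ_[l]) * hz1 g
      · change chi l g ^ (-n) * (chi l g ^ (n + 1) * 1) =
          chi l g * 1 + chi l g * (be l g : ℚ_[l]) * 0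
        linear_combination hz1 g
    calc chi l g ^ (-n) • V.obj.ρ g (ψ.hom.hom b2)
        = ψ.hom.hom (chi l g ^ (-n) •
          ((EE P (isCoc_be (F := F) (l := l)) isSplit_be (n + 1)).obj.ρ g b2)) := by
          rw [map_smul, Rep.hom_comm_apply]
      _ = ψ.hom.hom (chi l g • b2 + (chi l g * (be l g : ℚ_[l])) • b1) := by rw [e]
      _ = chi l g • ψ.hom.hom b2 + (chi l g * (be l g : ℚ_[l])) • ψ.hom.hom b1 := by
          rw [map_add, map_smul, map_smul]
  · intro g
    obtain ⟨c, hc⟩ := ShortExact_exact hs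
      (chi l g ^ (-n) • V.obj.ρ g e3 - e3 - a g • ψ.hom.hom b2) (by
        rw [map_sub, map_sub, map_smul, map_smul, Rep.hom_comm_apply, he3, he2]
        refine Prod.ext ?_ ?_
        · change chi l g ^ (-n) * (chi l g ^ (n + 1) * 0 + chi l g ^ n * a g * 1) - 0 -
            a g * 1 = 0
          linear_combination a g * hz g
        · change chi l g ^ (-n) * (chi l g ^ n * 1) - 1 - a g * 0 = 0
          linear_combination hz g)
    let c' : ℚ_[l] := c
    have h5 : i.hom.hom c = c' • ψ.hom.hom b1 := by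
      rw [he1, ← map_smul]
      congr 1
      change c' = c' * 1
      rw [mul_one]
    refine ⟨c', ?_⟩
    refine (hρ g _).trans ?_
    change chi l g ^ (-n) • V.obj.ρ g e3 = e3 + a g • ψ.hom.hom b2 + c' • ψ.hom.hom b1
    rw [← h5, hc]
    abel

variable (F l) in
/-- the cocycle which belongs to a sequence -/
noncomputable def alZ (x : ℕ → Bool) : Zs F l :=
  ⟨fun g => (alX l (XX x) g : ℚ_[l]), isCoc_alX _, isSplit_alX _⟩

/-- The products of the classes of the extensions given by the cocycles `alX` and `be` are linearly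
independent. -/
theorem linearIndependent_classes (P : ObjectProperty (Reps F l)) [IsGood P]
    [HasExt.{w} P.FullSubcategory] (n : ℤ) :
    LinearIndependent ℚ_[l] fun x : ℕ → Bool =>
      ((clsL n P (alZ F l x)).comp
        ((shortExact_EE P (isCoc_be (F := F) (l := l)) isSplit_be (n + 1)).extClass :
        Ext.{w} (QQ P (n + 1)) (QQ P (n + 1 + 1)) 1) (rfl : 1 + 1 = 2) :
        Ext.{w} (QQ P n) (QQ P (n + 1 + 1)) 2) := by
  let L : Zs F l →ₗ[ℚ_[l]] Ext.{w} (QQ P n) (QQ P (n + 1 + 1)) 2 :=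
    (Ext.postcompOfLinear ((shortExact_EE P (isCoc_be (F := F) (l := l)) isSplit_be
        (n + 1)).extClass : Ext.{w} (QQ P (n + 1)) (QQ P (n + 1 + 1)) 1) ℚ_[l] (QQ P n)
        (rfl : 1 + 1 = 2)).comp (clsL n P)
  change LinearIndependent ℚ_[l] fun x : ℕ → Bool => L (alZ F l x)
  rw [linearIndependent_iff']
  intro s c h x hx
  by_contra hcx
  have h1 : L (∑ y ∈ s, c y • alZ F l y) = 0 := by
    rw [map_sum, ← h]
    refine Finset.sum_congr rfl fun y _ => ?_
    rw [map_smul]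
  refine ext_ne_zero' P n (∑ y ∈ s, c y • alZ F l y).2.1 (∑ y ∈ s, c y • alZ F l y).2.2
    (fun C hC hcont => ?_) h1
  refine no_function' (C := C) hx hcx ?_ hcont
  have h2 : ((∑ y ∈ s, c y • alZ F l y : Zs F l) : AbsGal F → ℚ_[l]) =
      fun t : AbsGal F => ∑ y ∈ s, c y * (alX l (XX y) t : ℚ_[l]) := by
    funext t
    rw [Submodule.coe_sum, Finset.sum_apply]
    rfl
  rw [← h2]
  exact hC

theorem exists_family (P : ObjectProperty (Reps F l)) [IsGood P]
    [HasExt.{w} P.FullSubcategory] (n m k : ℤ) (hm : m = n + 1) (hk : k = m + 1) :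
    ∃ (e : (ℕ → Bool) → Ext.{w} (QQ P n) (QQ P m) 1) (f : Ext.{w} (QQ P m) (QQ P k) 1),
      LinearIndependent ℚ_[l] fun x => (e x).comp f (rfl : 1 + 1 = 2) := by
  subst hm
  subst hk
  exact ⟨_, _, linearIndependent_classes (F := F) (l := l) P n⟩

end Pool.Agent.H89.CD
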