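import Mathlib
import Pool.Agent.H89.CD.Seq2

/-!
# Mixed representations with semisimple graded quotients
-/

set_option autoImplicit false
set_option linter.unusedSectionVars false
set_option maxHeartbeats 1000000

open NumberField CategoryTheory Polynomial Limits
open Pool.Agent.N491.CD hiding comp_zero_apply shortExact_of ShortExact_inj ShortExact_surj ShortExact_exact prop_ExtT prop_Tate QQ EE inc pro inc_pro shortExact_EE

namespace Pool.Agent.H89.CD

variable {F : Type} [Field F] [NumberField F] {l : ℕ} [hl : Fact l.Prime]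

section defs

variable {V : Type} [AddCommGroup V] [Module ℚ_[l] V]

/-- The submodule `U` is a subrepresentation. -/
def Stable (ρ : Representation ℚ_[l] (AbsGal F) V) (U : Submodule ℚ_[l] V) : Prop :=
  ∀ g, ∀ x ∈ U, ρ g x ∈ U

/-- The quotient `W / W'` of two subrepresentations `W' ≤ W` of the representation `ρ` is semisimple:
every subrepresentation `U / W'` of it has a complement. -/
def SsGr (ρ : Representation ℚ_[l] (AbsGal F) V) (W' W : Submodule ℚ_[l] V) : Prop :=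
  ∀ U, Stable ρ U → W' ≤ U → U ≤ W → ∃ U', Stable ρ U' ∧ U ⊓ U' = W' ∧ U ⊔ U' = W

/-- `ρ` is mixed with semisimple graded quotients: it has a finite increasing filtration by
subrepresentations `W m`, `m ∈ ℤ`, such that `W m / W (m - 1)` is pure of weight `m` and semisimple for
all `m`. -/
def IsMixedSS (ρ : Representation ℚ_[l] (AbsGal F) V) : Prop :=
  ∃ W : ℤ → Submodule ℚ_[l] V, (∀ m, Stable ρ (W m)) ∧ Monotone W ∧
    (∃ a, W a = ⊥) ∧ (∃ b, W b = ⊤) ∧
      ∀ m, PureGr ρ (W (m - 1)) (W m) m ∧ SsGr ρ (W (m - 1)) (W m)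

variable {ρ : Representation ℚ_[l] (AbsGal F) V}

theorem Stable.inf {U U' : Submodule ℚ_[l] V} (h : Stable ρ U) (h' : Stable ρ U') :
    Stable ρ (U ⊓ U') := fun g x hx => ⟨h g x hx.1, h' g x hx.2⟩

theorem Stable.sup {U U' : Submodule ℚ_[l] V} (h : Stable ρ U) (h' : Stable ρ U') :
    Stable ρ (U ⊔ U') := by
  intro g x hx
  obtain ⟨y, hy, z, hz, rfl⟩ := Submodule.mem_sup.1 hx
  rw [map_add]
  exact Submodule.add_mem_sup (h g y hy) (h' g z hz)

/-- Subintervals. -/
theorem SsGr.sub {A B C : Submodule ℚ_[l] V} (h : SsGr ρ A C) (hB : Stable ρ B) (hBC : B ≤ C) :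
    SsGr ρ A B := by
  intro U hU hAU hUB
  obtain ⟨U', hU', h1, h2⟩ := h U hU hAU (hUB.trans hBC)
  refine ⟨U' ⊓ B, hU'.inf hB, ?_, ?_⟩
  · rw [← inf_assoc, h1]
    exact inf_eq_left.2 (hAU.trans hUB)
  · rw [← sup_inf_assoc_of_le U' hUB, h2]
    exact inf_eq_right.2 hBC

/-- Two semisimple quotients. -/
theorem SsGr.two {K L A B : Submodule ℚ_[l] V} (hK : SsGr ρ K B) (hL : SsGr ρ L B)
    (hKs : Stable ρ K) (hLs : Stable ρ L) (hKL : K ⊓ L = A)
    (hKB : K ≤ B) (hLB : L ≤ B) : SsGr ρ A B := by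
  intro U hU hAU hUB
  obtain ⟨C, hC, h1, h2⟩ := hK (U ⊔ K) (hU.sup hKs) le_sup_right (sup_le hUB hKB)
  have hKC : K ≤ C := by
    rw [← h1]
    exact inf_le_right
  have hCB : C ≤ B := by
    rw [← h2]
    exact le_sup_right
  have hsub := hL.sub (hC.sup hLs) (sup_le hCB hLB)
  obtain ⟨D, hD, h3, h4⟩ := hsub ((U ⊓ K) ⊔ L) ((hU.inf hKs).sup hLs) le_sup_right
    (sup_le ((inf_le_right.trans hKC).trans le_sup_left) le_sup_right)
  have hLD : L ≤ D := by
    rw [← h3]
    exact inf_le_right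
  have hUC : U ⊓ C ≤ K := by
    rw [← h1]
    exact inf_le_inf_right _ le_sup_left
  refine ⟨D ⊓ C, hD.inf hC, le_antisymm ?_ ?_, le_antisymm ?_ ?_⟩
  · rw [← hKL]
    have h5 : U ⊓ (D ⊓ C) ≤ K := (inf_le_inf_left U inf_le_right).trans hUC
    refine le_inf h5 ?_
    rw [← h3]
    refine le_inf ?_ (inf_le_right.trans inf_le_left)
    exact (le_inf inf_le_left h5).trans le_sup_left
  · refine le_inf hAU (le_inf ?_ ?_)
    · rw [← hKL]
      exact inf_le_right.trans hLD
    · rw [← hKL]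
      exact inf_le_left.trans hKC
  · exact sup_le hUB (inf_le_right.trans hCB)
  · have h5 : C ≤ U ⊔ (D ⊓ C) := by
      have h6 : C ≤ (U ⊓ K) ⊔ (D ⊓ C) := by
        have h7 : (U ⊓ K) ≤ C := inf_le_right.trans hKC
        rw [← sup_inf_assoc_of_le D h7]
        refine le_inf ?_ le_rfl
        have h8 : C ≤ (U ⊓ K ⊔ L) ⊔ D := by
          rw [h4]
          exact le_sup_left
        refine h8.trans ?_
        refine sup_le (sup_le le_sup_left (hLD.trans le_sup_right)) le_sup_right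
      exact h6.trans (sup_le_sup_right inf_le_left _)
    have h6 : B ≤ (U ⊔ K) ⊔ C := by rw [h2]
    refine h6.trans (sup_le (sup_le le_sup_left (hKC.trans h5)) h5)

/-- Isotypic quotients are semisimple. -/
theorem SsGr.of_all {A B : Submodule ℚ_[l] V} (hAB : A ≤ B)
    (h : ∀ U, A ≤ U → U ≤ B → Stable ρ U) : SsGr ρ A B := by
  intro U hU hAU hUB
  obtain ⟨U'', hc⟩ := exists_isCompl U
  have h1 : U ⊓ ((A ⊔ U'') ⊓ B) = A := by
    rw [inf_comm (A ⊔ U''), ← inf_assoc, inf_eq_left.2 hUB, inf_comm, sup_inf_assoc_of_le _ hAU,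
      inf_comm, hc.inf_eq_bot, sup_bot_eq]
  have h2 : U ⊔ ((A ⊔ U'') ⊓ B) = B := by
    rw [← sup_inf_assoc_of_le _ hUB, ← sup_assoc, sup_eq_left.2 hAU, hc.sup_eq_top, top_inf_eq]
  refine ⟨(A ⊔ U'') ⊓ B, h _ (le_inf le_sup_left hAB) inf_le_right, h1, h2⟩

end defs

section maps

theorem stable_comap {Z X : Reps F l} (p : Z ⟶ X) {W : Submodule ℚ_[l] X}
    (hW : Stable X.ρ W) : Stable Z.ρ (W.comap p.hom.toLinearMap) := by
  intro g x hx
  change p.hom (Z.ρ g x) ∈ W
  rw [Rep.hom_comm_apply]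
  exact hW g _ hx

theorem stable_map {Z X : Reps F l} (p : Z ⟶ X) {W : Submodule ℚ_[l] Z}
    (hW : Stable Z.ρ W) : Stable X.ρ (W.map p.hom.toLinearMap) := by
  rintro g _ ⟨x, hx, rfl⟩
  exact ⟨Z.ρ g x, hW g x hx, Rep.hom_comm_apply p g x⟩

/-- The semisimplicity of the preimage. -/
theorem SsGr.comap {Z X : Reps F l} (p : Z ⟶ X) {W' W : Submodule ℚ_[l] X} (h : SsGr X.ρ W' W)
    (hW' : Stable X.ρ W') (hWW : W' ≤ W) {B : Submodule ℚ_[l] Z} (hB : Stable Z.ρ B)
    (hBW : B ≤ W.comap p.hom.toLinearMap) : SsGr Z.ρ (W'.comap p.hom.toLinearMap ⊓ B) B := by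
  intro U hU hKU hUB
  obtain ⟨C, hC, h1, h2⟩ := h (U.map p.hom.toLinearMap ⊔ W') ((stable_map p hU).sup hW')
    le_sup_right (sup_le (Submodule.map_le_iff_le_comap.2 (hUB.trans hBW)) hWW)
  have hWC : W' ≤ C := by
    rw [← h1]
    exact inf_le_right
  refine ⟨C.comap p.hom.toLinearMap ⊓ B, (stable_comap p hC).inf hB, le_antisymm ?_ ?_,
    le_antisymm ?_ ?_⟩
  · rintro z ⟨hz1, hz2, hz3⟩
    refine ⟨?_, hz3⟩
    have h3 : p.hom.toLinearMap z ∈ (U.map p.hom.toLinearMap ⊔ W') ⊓ C :=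
      ⟨Submodule.mem_sup_left ⟨z, hz1, rfl⟩, hz2⟩
    rw [h1] at h3
    exact h3
  · exact le_inf hKU (inf_le_inf_right _ (Submodule.comap_mono hWC))
  · exact sup_le hUB inf_le_right
  · intro z hz
    have h3 : p.hom.toLinearMap z ∈ (U.map p.hom.toLinearMap ⊔ W') ⊔ C := by
      rw [h2]
      exact hBW hz
    rw [sup_assoc, sup_eq_right.2 hWC] at h3
    obtain ⟨y, ⟨u, hu, rfl⟩, c, hc, hyc⟩ := Submodule.mem_sup.1 h3
    refine Submodule.mem_sup.2 ⟨u, hu, z - u, ⟨?_, B.sub_mem hz (hUB hu)⟩, by abel⟩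
    change p.hom.toLinearMap (z - u) ∈ C
    rw [map_sub, ← hyc, add_sub_cancel_left]
    exact hc

theorem SsGr.map {X Y : Reps F l} (f : X ⟶ Y) {W' W : Submodule ℚ_[l] X} (h : SsGr X.ρ W' W)
    (hW : Stable X.ρ W) (hWW : W' ≤ W) :
    SsGr Y.ρ (W'.map f.hom.toLinearMap) (W.map f.hom.toLinearMap) := by
  intro U hU h1 h2
  obtain ⟨C, hC, h3, h4⟩ := h (U.comap f.hom.toLinearMap ⊓ W) ((stable_comap f hU).inf hW)
    (le_inf (Submodule.map_le_iff_le_comap.1 h1) hWW) inf_le_right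
  have hCW : C ≤ W := by
    rw [← h4]
    exact le_sup_right
  refine ⟨C.map f.hom.toLinearMap, stable_map f hC, le_antisymm ?_ ?_, le_antisymm ?_ ?_⟩
  · rintro _ ⟨hu, c, hc, rfl⟩
    have h5 : c ∈ (U.comap f.hom.toLinearMap ⊓ W) ⊓ C := ⟨⟨hu, hCW hc⟩, hc⟩
    rw [h3] at h5
    exact ⟨c, h5, rfl⟩
  · refine le_inf h1 (Submodule.map_mono ?_)
    rw [← h3]
    exact inf_le_right
  · exact sup_le h2 (Submodule.map_mono hCW)
  · rintro _ ⟨w, hw, rfl⟩
    have h5 : w ∈ (U.comap f.hom.toLinearMap ⊓ W) ⊔ C := by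
      rw [h4]
      exact hw
    obtain ⟨y, hy, c, hc, rfl⟩ := Submodule.mem_sup.1 h5
    rw [map_add]
    exact Submodule.add_mem_sup hy.1 ⟨c, hc, rfl⟩

theorem IsMixedSS.of_jointInj {Z X Y : Reps F l} {p : Z ⟶ X} {q : Z ⟶ Y} (h : JointInj p q)
    (hX : IsMixedSS X.ρ) (hY : IsMixedSS Y.ρ) : IsMixedSS Z.ρ := by
  obtain ⟨W, hW, hm, ⟨a, ha⟩, ⟨b, hb⟩, hp⟩ := hX
  obtain ⟨W', hW', hm', ⟨a', ha'⟩, ⟨b', hb'⟩, hp'⟩ := hY
  refine ⟨fun m => (W m).comap p.hom.toLinearMap ⊓ (W' m).comap q.hom.toLinearMap,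
    fun m => (stable_comap p (hW m)).inf (stable_comap q (hW' m)), ?_,
    ⟨min a a', ?_⟩, ⟨max b b', ?_⟩, ?_⟩
  · intro m n hmn x hx
    exact ⟨hm hmn hx.1, hm' hmn hx.2⟩
  · rw [eq_bot_iff]
    intro x hx
    have h1 : p.hom x ∈ W a := hm (min_le_left a a') hx.1
    have h2 : q.hom x ∈ W' a' := hm' (min_le_right a a') hx.2
    rw [ha, Submodule.mem_bot] at h1
    rw [ha', Submodule.mem_bot] at h2
    exact h x h1 h2
  · rw [eq_top_iff]
    intro x _
    refine ⟨hm (le_max_left b b') ?_, hm' (le_max_right b b') ?_⟩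
    · rw [hb]
      trivial
    · rw [hb']
      trivial
  · intro m
    refine ⟨?_, ?_⟩
    · obtain ⟨N, hN, h1⟩ := (hp m).1
      obtain ⟨N', hN', h1'⟩ := (hp' m).1
      refine ⟨N * N', mul_ne_zero hN hN', fun P hP hNP hlP => ?_⟩
      have hNP1 : (N : 𝓞 (AlgebraicClosure F)) ∉ P := fun h => hNP (by
        rw [Nat.cast_mul]
        exact P.mul_mem_right _ h)
      have hNP2 : (N' : 𝓞 (AlgebraicClosure F)) ∉ P := fun h => hNP (by
        rw [Nat.cast_mul]
        exact P.mul_mem_left _ h)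
      obtain ⟨h2, h3⟩ := h1 P hP hNP1 hlP
      obtain ⟨h2', h3'⟩ := h1' P hP hNP2 hlP
      refine ⟨fun τ hτ x hx => ⟨?_, ?_⟩, fun Φ hΦ => ?_⟩
      · change p.hom (Z.ρ τ x - x) ∈ W (m - 1)
        rw [map_sub, Rep.hom_comm_apply]
        exact h2 τ hτ _ hx.1
      · change q.hom (Z.ρ τ x - x) ∈ W' (m - 1)
        rw [map_sub, Rep.hom_comm_apply]
        exact h2' τ hτ _ hx.2
      · obtain ⟨Q, hQ, h4, h5⟩ := h3 Φ hΦ
        obtain ⟨Q', hQ', h4', h5'⟩ := h3' Φ hΦ
        refine ⟨Q * Q', mul_ne_zero hQ hQ', fun z hz => ?_, fun x hx => ⟨?_, ?_⟩⟩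
        · rw [map_mul, mul_eq_zero] at hz
          exact hz.elim (h4 z) (h4' z)
        · change p.hom (aeval (Z.ρ Φ) ((Q * Q').map (algebraMap ℚ ℚ_[l])) x) ∈ W (m - 1)
          rw [hom_aeval, mul_comm, Polynomial.map_mul, map_mul, Module.End.mul_apply]
          exact aeval_mem (hW (m - 1) Φ) _ (h5 _ hx.1)
        · change q.hom (aeval (Z.ρ Φ) ((Q * Q').map (algebraMap ℚ ℚ_[l])) x) ∈ W' (m - 1)
          rw [hom_aeval, Polynomial.map_mul, map_mul, Module.End.mul_apply]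
          exact aeval_mem (hW' (m - 1) Φ) _ (h5' _ hx.2)
    · have hBs : Stable Z.ρ ((W m).comap p.hom.toLinearMap ⊓ (W' m).comap q.hom.toLinearMap) :=
        (stable_comap p (hW m)).inf (stable_comap q (hW' m))
      have h1 := (hp m).2.comap p (hW (m - 1)) (hm (by omega)) hBs inf_le_left
      have h2 := (hp' m).2.comap q (hW' (m - 1)) (hm' (by omega)) hBs inf_le_right
      refine SsGr.two h1 h2 ((stable_comap p (hW _)).inf hBs) ((stable_comap q (hW' _)).inf hBs)
        (le_antisymm ?_ ?_) inf_le_right inf_le_right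
      · exact le_inf (inf_le_left.trans inf_le_left) (inf_le_right.trans inf_le_left)
      · have h3 : (W (m - 1)).comap p.hom.toLinearMap ⊓ (W' (m - 1)).comap q.hom.toLinearMap ≤
            (W m).comap p.hom.toLinearMap ⊓ (W' m).comap q.hom.toLinearMap :=
          inf_le_inf (Submodule.comap_mono (hm (by omega))) (Submodule.comap_mono (hm' (by omega)))
        exact le_inf (le_inf inf_le_left h3) (le_inf inf_le_right h3)

theorem IsMixedSS.of_surj {X Y : Reps F l} {f : X ⟶ Y} (hf : Function.Surjective f.hom)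
    (hX : IsMixedSS X.ρ) : IsMixedSS Y.ρ := by
  obtain ⟨W, hW, hm, ⟨a, ha⟩, ⟨b, hb⟩, hp⟩ := hX
  refine ⟨fun m => (W m).map f.hom.toLinearMap, fun m => stable_map f (hW m), ?_, ⟨a, ?_⟩,
    ⟨b, ?_⟩, ?_⟩
  · intro m n hmn
    exact Submodule.map_mono (hm hmn)
  · simp [ha]
  · simp only [hb, Submodule.map_top]
    exact LinearMap.range_eq_top.2 hf
  · intro m
    refine ⟨?_, (hp m).2.map f (hW m) (hm (by omega))⟩
    obtain ⟨N, hN, h1⟩ := (hp m).1
    refine ⟨N, hN, fun P hP hNP hlP => ?_⟩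
    obtain ⟨h2, h3⟩ := h1 P hP hNP hlP
    refine ⟨?_, fun Φ hΦ => ?_⟩
    · rintro τ hτ _ ⟨x, hx, rfl⟩
      refine ⟨X.ρ τ x - x, h2 τ hτ x hx, ?_⟩
      change f.hom (X.ρ τ x - x) = Y.ρ τ (f.hom x) - f.hom x
      rw [map_sub, Rep.hom_comm_apply]
    · obtain ⟨Q, hQ, h4, h5⟩ := h3 Φ hΦ
      refine ⟨Q, hQ, h4, ?_⟩
      rintro _ ⟨x, hx, rfl⟩
      refine ⟨_, h5 x hx, ?_⟩
      exact hom_aeval f Φ _ x

/-- The two-step extensions of representations `ℚ_l(n)` are mixed with semisimple graded quotients. -/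
theorem mixedSS_of {V : Reps F l} {n : ℤ} (L : Submodule ℚ_[l] V)
    (hL1 : ∀ g, ∀ x ∈ L, V.ρ g x = chi l g ^ (n + 1) • x)
    (hL2 : ∀ g x, V.ρ g x - chi l g ^ n • x ∈ L) : IsMixedSS V.ρ := by
  classical
  let W : ℤ → Submodule ℚ_[l] V := fun m =>
    if -2 * n ≤ m then ⊤ else if -2 * (n + 1) ≤ m then L else ⊥
  have hW1 : ∀ m, -2 * n ≤ m → W m = ⊤ := fun m h => if_pos h
  have hW2 : ∀ m, ¬ -2 * n ≤ m → -2 * (n + 1) ≤ m → W m = L := fun m h h' => by
    change (if _ then _ else _) = _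
    rw [if_neg h, if_pos h']
  have hW3 : ∀ m, ¬ -2 * (n + 1) ≤ m → W m = ⊥ := fun m h' => by
    change (if _ then _ else _) = _
    rw [if_neg (by omega), if_neg h']
  have hst : ∀ m g, ∀ x ∈ W m, V.ρ g x ∈ W m := by
    intro m g x hx
    by_cases h1 : -2 * n ≤ m
    · rw [hW1 m h1]
      trivial
    by_cases h2 : -2 * (n + 1) ≤ m
    · rw [hW2 m h1 h2] at hx ⊢
      rw [hL1 g x hx]
      exact L.smul_mem _ hx
    · rw [hW3 m h2, Submodule.mem_bot] at hx
      rw [hx, map_zero]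
      exact Submodule.zero_mem _
  refine ⟨W, hst, ?_, ⟨-2 * (n + 1) - 1, hW3 _ (by omega)⟩, ⟨-2 * n, hW1 _ le_rfl⟩, ?_⟩
  · intro m m' hmm
    by_cases h1 : -2 * n ≤ m'
    · rw [hW1 m' h1]
      exact le_top
    by_cases h2 : -2 * (n + 1) ≤ m
    · rw [hW2 m (by omega) h2, hW2 m' h1 (by omega)]
    · rw [hW3 m h2]
      exact bot_le
  · intro m
    refine ⟨⟨1, one_ne_zero, fun P hP _ hlP => ?_⟩, ?_⟩
    · by_cases h1 : m = -2 * n
      · have e2 : W (m - 1) = L := hW2 _ (by omega) (by omega)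
        rw [e2]
        refine ⟨fun τ hτ x _ => ?_, fun Φ hΦ => ?_⟩
        · have := hL2 τ x
          rwa [chi_inertia hP hlP hτ, one_zpow, one_smul] at this
        · refine ⟨X - C (((residueCard P : ℚ)⁻¹) ^ n), X_sub_C_ne_zero _, fun z hz => ?_, fun x _ => ?_⟩
          · rw [h1]
            exact zpow_weight n z hz
          · rw [Polynomial.map_sub, map_X, map_C, map_sub, aeval_X, aeval_C,
              LinearMap.sub_apply, Module.algebraMap_end_apply, map_zpow₀, map_inv₀, map_natCast,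
              ← chi_frobenius hP hlP hΦ]
            exact hL2 Φ x
      by_cases h2 : m = -2 * (n + 1)
      · have e1 : W m = L := hW2 m (by omega) (by omega)
        have e2 : W (m - 1) = ⊥ := hW3 _ (by omega)
        rw [e1, e2]
        refine ⟨fun τ hτ x hx => ?_, fun Φ hΦ => ?_⟩
        · rw [Submodule.mem_bot, hL1 τ x hx, chi_inertia hP hlP hτ, one_zpow, one_smul, sub_self]
        · refine ⟨X - C (((residueCard P : ℚ)⁻¹) ^ (n + 1)), X_sub_C_ne_zero _, fun z hz => ?_,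
            fun x hx => ?_⟩
          · rw [h2]
            exact zpow_weight (n + 1) z hz
          · rw [Submodule.mem_bot, Polynomial.map_sub, map_X, map_C, map_sub, aeval_X, aeval_C,
              LinearMap.sub_apply, Module.algebraMap_end_apply, map_zpow₀, map_inv₀, map_natCast,
              ← chi_frobenius hP hlP hΦ, hL1 Φ x hx, sub_self]
      · have e1 : W (m - 1) = W m := by
          by_cases h3 : -2 * n ≤ m
          · rw [hW1 m h3, hW1 (m - 1) (by omega)]
          by_cases h4 : -2 * (n + 1) ≤ m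
          · rw [hW2 m h3 h4, hW2 (m - 1) (by omega) (by omega)]
          · rw [hW3 m h4, hW3 (m - 1) (by omega)]
        rw [e1]
        refine ⟨fun τ _ x hx => Submodule.sub_mem _ (hst m τ x hx) hx, fun Φ hΦ => ⟨1, one_ne_zero,
          fun z hz => ?_, fun x hx => ?_⟩⟩
        · rw [map_one] at hz
          exact absurd hz one_ne_zero
        · rw [Polynomial.map_one, map_one]
          exact hx
    · have hWm : W (m - 1) ≤ W m := by
        by_cases h1 : -2 * n ≤ m
        · rw [hW1 m h1]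
          exact le_top
        by_cases h2 : -2 * (n + 1) ≤ m - 1
        · rw [hW2 (m - 1) (by omega) h2, hW2 m h1 (by omega)]
        · rw [hW3 (m - 1) h2]
          exact bot_le
      refine SsGr.of_all hWm fun U hU1 hU2 g x hx => ?_
      by_cases h2 : -2 * (n + 1) ≤ m - 1
      · have hL : L ≤ U := by
          refine le_trans ?_ hU1
          by_cases h3 : -2 * n ≤ m - 1
          · rw [hW1 _ h3]
            exact le_top
          · rw [hW2 _ h3 h2]
        have h3 : V.ρ g x = (V.ρ g x - chi l g ^ n • x) + chi l g ^ n • x := by abel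
        rw [h3]
        exact U.add_mem (hL (hL2 g x)) (U.smul_mem _ hx)
      · have hL : U ≤ L := by
          refine hU2.trans ?_
          by_cases h3 : -2 * (n + 1) ≤ m
          · rw [hW2 _ (by omega) h3]
          · rw [hW3 _ h3]
            exact bot_le
        rw [hL1 g x (hL hx)]
        exact U.smul_mem _ hx

end maps

section cat

variable (𝒜 : ObjectProperty (Reps F l)) [IsAdmissible 𝒜]

/-- The `l`-adic representations that are mixed with semisimple graded quotients and belong to the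
class `𝒜`. -/
def MixedSS (𝒜 : ObjectProperty (Reps F l)) : ObjectProperty (Reps F l) :=
  fun V => IsLadic V.ρ ∧ IsMixedSS V.ρ ∧ 𝒜 V

instance : (MixedSS 𝒜).IsClosedUnderSubobjects where
  prop_of_mono {X Y} f _ hY := by
    have h1 : Function.Injective f.hom := (Rep.mono_iff_injective f).1 inferInstance
    have h2 : JointInj f f := fun z hz _ => h1 (by rw [hz, map_zero])
    exact ⟨hY.1.of_jointInj h2 hY.1, hY.2.1.of_jointInj h2 hY.2.1, 𝒜.prop_of_mono f hY.2.2⟩

instance : (MixedSS 𝒜).IsClosedUnderQuotients where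
  prop_of_epi {X Y} f _ hX := by
    have h1 : Function.Surjective f.hom := (Rep.epi_iff_surjective f).1 inferInstance
    exact ⟨hX.1.of_surj h1, hX.2.1.of_surj h1, 𝒜.prop_of_epi f hX.2.2⟩

instance : (MixedSS 𝒜).ContainsZero where
  exists_zero := by
    obtain ⟨Z, hZ, hA⟩ := 𝒜.exists_prop_of_containsZero
    have hs : Subsingleton Z.V := (Rep.isZero_iff _ _ Z).1 hZ
    refine ⟨Z, hZ, ⟨inferInstance, fun v f => ?_⟩, ?_, hA⟩
    · have h : ∀ g, Z.ρ g v = 0 := fun g => Subsingleton.elim _ _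
      simp only [h, map_zero]
      exact continuous_const
    · exact mixedSS_of (n := 0) ⊥ (fun g x _ => Subsingleton.elim _ _)
        (fun g x => by
          rw [Subsingleton.elim (Z.ρ g x - chi l g ^ (0 : ℤ) • x) 0]
          exact Submodule.zero_mem _)

instance : (MixedSS 𝒜).IsClosedUnderBinaryProducts where
  limitsOfShape_le := by
    rintro X ⟨p⟩
    have h1 : JointInj (p.π.app ⟨WalkingPair.left⟩) (p.π.app ⟨WalkingPair.right⟩) := by
      refine jointInj_of _ _ fun K a ha hb => p.isLimit.hom_ext fun j => ?_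
      rcases j with ⟨_ | _⟩
      · exact ha.trans Limits.zero_comp.symm
      · exact hb.trans Limits.zero_comp.symm
    have hl := p.prop_diag_obj ⟨WalkingPair.left⟩
    have hr := p.prop_diag_obj ⟨WalkingPair.right⟩
    refine ⟨IsLadic.of_jointInj h1 hl.1 hr.1, IsMixedSS.of_jointInj h1 hl.2.1 hr.2.1, ?_⟩
    refine 𝒜.prop_of_isLimit p.isLimit fun j => (p.prop_diag_obj j).2.2

instance : (MixedSS 𝒜).IsClosedUnderFiniteProducts := .mk'

instance isGood_mixedSS : IsGood (MixedSS 𝒜) where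
  ladic V hV := hV.1
  tate V := by
    rintro ⟨h1, h2, h3⟩
    obtain ⟨n, L, hL1, hL2⟩ := twoStep_elim h3
    exact ⟨h1, mixedSS_of L hL1 hL2, IsAdmissible.tate V h1 h2⟩

instance isGood_mixed : IsGood (Mixed 𝒜) where
  ladic V hV := hV.1
  tate V := by
    rintro ⟨h1, h2, h3⟩
    obtain ⟨n, L, hL1, hL2⟩ := twoStep_elim h3
    exact ⟨h1, mixed_of L hL1 hL2, IsAdmissible.tate V h1 h2⟩

end cat

end Pool.Agent.H89.CD
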