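import Mathlib
import Pool.Agent.H89.CD.SS

/-!
# The tensor products of a representation with the extensions of `ℚ_l` by `ℚ_l(1)`
-/

set_option autoImplicit false
set_option linter.unusedSectionVars false
set_option maxHeartbeats 1000000

universe w

open NumberField CategoryTheory Polynomial Limits Abelian
open Pool.Agent.N491.CD hiding comp_zero_apply shortExact_of ShortExact_inj ShortExact_surj ShortExact_exact prop_ExtT prop_Tate QQ EE inc pro inc_pro shortExact_EE

namespace Pool.Agent.H89.CD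

variable {F : Type} [Field F] [NumberField F] {l : ℕ} [hl : Fact l.Prime]

/-- the Tate twist `V(1)` -/
noncomputable def tw1Rep (V : Reps F l) : Representation ℚ_[l] (AbsGal F) V where
  toFun g := chi l g • V.ρ g
  map_one' := by
    rw [chi_one, one_smul, map_one]
  map_mul' g h := by
    refine LinearMap.ext fun x => ?_
    change chi l (g * h) • V.ρ (g * h) x = chi l g • V.ρ g (chi l h • V.ρ h x)
    rw [chi_mul, map_smul, Rep.ρ_mul, LinearMap.comp_apply, mul_smul]

/-- the Tate twist `V(1)` -/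
noncomputable def Tw1 (V : Reps F l) : Reps F l := Rep.of (tw1Rep V)

/-- The tensor product of `V` with the extension of `ℚ_l` by `ℚ_l(1)` given by the cocycle `a`: the
space is `V(1) × V`. -/
noncomputable def exRep (V : Reps F l) {a : AbsGal F → ℚ_[l]} (ha : IsCoc a) :
    Representation ℚ_[l] (AbsGal F) (V × V) where
  toFun g := LinearMap.prod
    (chi l g • (V.ρ g ∘ₗ LinearMap.fst _ _ _) + a g • (V.ρ g ∘ₗ LinearMap.snd _ _ _))
    (V.ρ g ∘ₗ LinearMap.snd _ _ _)
  map_one' := by
    refine LinearMap.ext fun x => ?_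
    rw [chi_one, ha.one, map_one]
    simp
  map_mul' g h := by
    refine LinearMap.ext fun x => ?_
    refine Prod.ext ?_ ?_
    · change chi l (g * h) • V.ρ (g * h) x.1 + a (g * h) • V.ρ (g * h) x.2 =
        chi l g • V.ρ g (chi l h • V.ρ h x.1 + a h • V.ρ h x.2) + a g • V.ρ g (V.ρ h x.2)
      rw [chi_mul, ha.mul, Rep.ρ_mul, map_add, map_smul, map_smul]
      change (chi l g * chi l h) • V.ρ g (V.ρ h x.1) + (a g + chi l g * a h) • V.ρ g (V.ρ h x.2) = _
      module
    · change V.ρ (g * h) x.2 = V.ρ g (V.ρ h x.2)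
      rw [Rep.ρ_mul]
      rfl

/-- The tensor product of `V` with the extension of `ℚ_l` by `ℚ_l(1)` given by the cocycle `a`. -/
noncomputable def Ex (V : Reps F l) {a : AbsGal F → ℚ_[l]} (ha : IsCoc a) : Reps F l :=
  Rep.of (exRep V ha)

theorem Ex_apply (V : Reps F l) {a : AbsGal F → ℚ_[l]} (ha : IsCoc a) (g : AbsGal F) (x : V × V) :
    (Ex V ha).ρ g x = (chi l g • V.ρ g x.1 + a g • V.ρ g x.2, V.ρ g x.2) := rfl

/-- The class `P` is closed under tensor products with the extensions of `ℚ_l` by `ℚ_l(1)` which split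
on the decomposition groups above `l`. -/
class IsExClosed (P : ObjectProperty (Reps F l)) : Prop where
  ex : ∀ (V : Reps F l) (a : AbsGal F → ℚ_[l]) (ha : IsCoc a), IsSplit a → P V → P (Ex V ha)

noncomputable def exInc (V : Reps F l) {a : AbsGal F → ℚ_[l]} (ha : IsCoc a) : Tw1 V ⟶ Ex V ha :=
  Rep.ofHom ⟨LinearMap.inl ℚ_[l] V V, fun g => LinearMap.ext fun x => by
    refine Prod.ext ?_ ?_
    · change chi l g • V.ρ g x = chi l g • V.ρ g x + a g • V.ρ g 0
      rw [map_zero, smul_zero, add_zero]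
    · change (0 : V) = V.ρ g 0
      rw [map_zero]⟩

noncomputable def exPro (V : Reps F l) {a : AbsGal F → ℚ_[l]} (ha : IsCoc a) : Ex V ha ⟶ V :=
  Rep.ofHom ⟨LinearMap.snd ℚ_[l] V V, fun g => LinearMap.ext fun _ => rfl⟩

theorem isCoc_zero : IsCoc (fun _ : AbsGal F => (0 : ℚ_[l])) where
  mul g h := by ring
  cont := continuous_const

theorem isSplit_zero : IsSplit (fun _ : AbsGal F => (0 : ℚ_[l])) := fun _ =>
  ⟨0, fun _ _ => by ring⟩

section objects

variable {P : ObjectProperty (Reps F l)} [IsGood P] [IsExClosed P] (X : P.FullSubcategory)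
  {a b : AbsGal F → ℚ_[l]} (ha : IsCoc a) (hb : IsCoc b) (hsa : IsSplit a) (hsb : IsSplit b)

theorem prop_Tw1 {V : Reps F l} (hV : P V) : P (Tw1 V) := by
  have hm : Mono (exInc V (isCoc_zero (F := F) (l := l))) :=
    (Rep.mono_iff_injective _).2 fun x y h => congrArg Prod.fst h
  exact P.prop_of_mono (exInc V (isCoc_zero (F := F) (l := l)))
    (IsExClosed.ex V _ isCoc_zero isSplit_zero hV)

/-- the twist of an object -/
noncomputable def TW : P.FullSubcategory := ⟨Tw1 X.obj, prop_Tw1 X.property⟩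

/-- the extension of `X` by `X(1)` given by a cocycle -/
noncomputable def EX : P.FullSubcategory := ⟨Ex X.obj ha, IsExClosed.ex _ _ ha hsa X.property⟩

noncomputable def eInc : TW X ⟶ EX X ha hsa := ObjectProperty.homMk (exInc X.obj ha)

noncomputable def ePro : EX X ha hsa ⟶ X := ObjectProperty.homMk (exPro X.obj ha)

theorem eInc_ePro : eInc X ha hsa ≫ ePro X ha hsa = 0 := by
  apply ObjectProperty.hom_ext
  apply Rep.hom_ext
  refine Representation.IntertwiningMap.ext (LinearMap.ext fun x => ?_)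
  rfl

theorem shortExact_EX :
    (ShortComplex.mk (eInc X ha hsa) (ePro X ha hsa) (eInc_ePro X ha hsa)).ShortExact := by
  refine shortExact_of ?_ ?_ ?_
  · intro x y h
    exact congrArg Prod.fst h
  · intro x
    exact ⟨((0 : X.obj), x), rfl⟩
  · intro b hb
    have hb' : (b : X.obj × X.obj).2 = 0 := hb
    refine ⟨(b : X.obj × X.obj).1, ?_⟩
    exact Prod.ext rfl hb'.symm

/-! ### The extension by the square -/

/-- an extension of `V` by the square of `V(1)` -/
noncomputable def vRep (V : Reps F l) {a b : AbsGal F → ℚ_[l]} (ha : IsCoc a) (hb : IsCoc b) :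
    Representation ℚ_[l] (AbsGal F) ((V × V) × V) where
  toFun g := LinearMap.prod
    (LinearMap.prod
      (chi l g • (V.ρ g ∘ₗ LinearMap.fst _ _ _ ∘ₗ LinearMap.fst _ _ _) +
        a g • (V.ρ g ∘ₗ LinearMap.snd _ _ _))
      (chi l g • (V.ρ g ∘ₗ LinearMap.snd _ _ _ ∘ₗ LinearMap.fst _ _ _) +
        b g • (V.ρ g ∘ₗ LinearMap.snd _ _ _)))
    (V.ρ g ∘ₗ LinearMap.snd _ _ _)
  map_one' := by
    refine LinearMap.ext fun x => ?_
    rw [chi_one, ha.one, hb.one, map_one]
    simp
  map_mul' g h := by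
    refine LinearMap.ext fun x => ?_
    refine Prod.ext (Prod.ext ?_ ?_) ?_
    · change chi l (g * h) • V.ρ (g * h) x.1.1 + a (g * h) • V.ρ (g * h) x.2 =
        chi l g • V.ρ g (chi l h • V.ρ h x.1.1 + a h • V.ρ h x.2) + a g • V.ρ g (V.ρ h x.2)
      rw [chi_mul, ha.mul, Rep.ρ_mul, map_add, map_smul, map_smul]
      change (chi l g * chi l h) • V.ρ g (V.ρ h x.1.1) +
        (a g + chi l g * a h) • V.ρ g (V.ρ h x.2) = _
      module
    · change chi l (g * h) • V.ρ (g * h) x.1.2 + b (g * h) • V.ρ (g * h) x.2 =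
        chi l g • V.ρ g (chi l h • V.ρ h x.1.2 + b h • V.ρ h x.2) + b g • V.ρ g (V.ρ h x.2)
      rw [chi_mul, hb.mul, Rep.ρ_mul, map_add, map_smul, map_smul]
      change (chi l g * chi l h) • V.ρ g (V.ρ h x.1.2) +
        (b g + chi l g * b h) • V.ρ g (V.ρ h x.2) = _
      module
    · change V.ρ (g * h) x.2 = V.ρ g (V.ρ h x.2)
      rw [Rep.ρ_mul]
      rfl

/-- the square of `V(1)` -/
noncomputable def vsRep (V : Reps F l) : Representation ℚ_[l] (AbsGal F) (V × V) where
  toFun g := LinearMap.prodMap (chi l g • V.ρ g) (chi l g • V.ρ g)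
  map_one' := by
    rw [chi_one, one_smul, map_one]
    rfl
  map_mul' g h := by
    refine LinearMap.ext fun x => ?_
    refine Prod.ext ?_ ?_
    · change chi l (g * h) • V.ρ (g * h) x.1 = chi l g • V.ρ g (chi l h • V.ρ h x.1)
      rw [chi_mul, map_smul, Rep.ρ_mul, LinearMap.comp_apply, mul_smul]
    · change chi l (g * h) • V.ρ (g * h) x.2 = chi l g • V.ρ g (chi l h • V.ρ h x.2)
      rw [chi_mul, map_smul, Rep.ρ_mul, LinearMap.comp_apply, mul_smul]

noncomputable def vFst (V : Reps F l) : (Rep.of (vRep V ha hb) : Reps F l) ⟶ Ex V ha :=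
  Rep.ofHom ⟨LinearMap.prod (LinearMap.fst ℚ_[l] V V ∘ₗ
    LinearMap.fst ℚ_[l] (V × V) V) (LinearMap.snd ℚ_[l] (V × V) V),
    fun _ => LinearMap.ext fun _ => rfl⟩

noncomputable def vSnd (V : Reps F l) : (Rep.of (vRep V ha hb) : Reps F l) ⟶ Ex V hb :=
  Rep.ofHom ⟨LinearMap.prod (LinearMap.snd ℚ_[l] V V ∘ₗ
    LinearMap.fst ℚ_[l] (V × V) V) (LinearMap.snd ℚ_[l] (V × V) V),
    fun _ => LinearMap.ext fun _ => rfl⟩

noncomputable def vInc (V : Reps F l) :
    (Rep.of (vsRep V) : Reps F l) ⟶ Rep.of (vRep V ha hb) :=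
  Rep.ofHom ⟨LinearMap.inl ℚ_[l] (V × V) V, fun g => LinearMap.ext fun x => by
    refine Prod.ext (Prod.ext ?_ ?_) ?_
    · change chi l g • V.ρ g x.1 = chi l g • V.ρ g x.1 + a g • V.ρ g 0
      rw [map_zero, smul_zero, add_zero]
    · change chi l g • V.ρ g x.2 = chi l g • V.ρ g x.2 + b g • V.ρ g 0
      rw [map_zero, smul_zero, add_zero]
    · change (0 : V) = V.ρ g 0
      rw [map_zero]⟩

noncomputable def vPro (V : Reps F l) : (Rep.of (vRep V ha hb) : Reps F l) ⟶ V :=
  Rep.ofHom ⟨LinearMap.snd ℚ_[l] (V × V) V, fun _ => LinearMap.ext fun _ => rfl⟩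

include hsa hsb in
theorem prop_V {V : Reps F l} (hV : P V) : P (Rep.of (vRep V ha hb) : Reps F l) := by
  have hm : Mono (prod.lift (vFst ha hb V) (vSnd ha hb V)) := by
    refine ⟨fun {K} s t hst => ?_⟩
    have h1 : s ≫ vFst ha hb V = t ≫ vFst ha hb V := by
      rw [← prod.lift_fst (vFst ha hb V) (vSnd ha hb V), ← Category.assoc, hst, Category.assoc]
    have h2 : s ≫ vSnd ha hb V = t ≫ vSnd ha hb V := by
      rw [← prod.lift_snd (vFst ha hb V) (vSnd ha hb V), ← Category.assoc, hst, Category.assoc]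
    apply Rep.hom_ext
    refine Representation.IntertwiningMap.ext (LinearMap.ext fun x => ?_)
    have h3 : (s ≫ vFst ha hb V).hom x = (t ≫ vFst ha hb V).hom x := by rw [h1]
    have h4 : (s ≫ vSnd ha hb V).hom x = (t ≫ vSnd ha hb V).hom x := by rw [h2]
    have h5 := congrArg (fun z : V × V => z.1) h3
    have h6 := congrArg (fun z : V × V => z.1) h4
    have h7 := congrArg (fun z : V × V => z.2) h3
    exact Prod.ext (Prod.ext h5 h6) h7
  exact P.prop_of_mono (prod.lift (vFst ha hb V) (vSnd ha hb V))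
    (P.prop_prod _ _ (IsExClosed.ex _ _ ha hsa hV) (IsExClosed.ex _ _ hb hsb hV))

theorem prop_VS {V : Reps F l} (hV : P V) : P (Rep.of (vsRep V) : Reps F l) := by
  have hm : Mono (vInc isCoc_zero isCoc_zero V) :=
    (Rep.mono_iff_injective _).2 fun x y h => congrArg Prod.fst h
  exact P.prop_of_mono (vInc isCoc_zero isCoc_zero V)
    (prop_V isCoc_zero isCoc_zero isSplit_zero isSplit_zero hV)

/-- the extension of `X` by the square of `X(1)` -/
noncomputable def VV : P.FullSubcategory :=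
  ⟨Rep.of (vRep X.obj ha hb), prop_V ha hb hsa hsb X.property⟩

noncomputable def VS : P.FullSubcategory := ⟨Rep.of (vsRep X.obj), prop_VS X.property⟩

noncomputable def Vinc : VS X ⟶ VV X ha hb hsa hsb := ObjectProperty.homMk (vInc ha hb X.obj)

noncomputable def Vpro : VV X ha hb hsa hsb ⟶ X := ObjectProperty.homMk (vPro ha hb X.obj)

theorem Vinc_Vpro : Vinc X ha hb hsa hsb ≫ Vpro X ha hb hsa hsb = 0 := by
  apply ObjectProperty.hom_ext
  apply Rep.hom_ext
  refine Representation.IntertwiningMap.ext (LinearMap.ext fun x => ?_)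
  rfl

theorem shortExact_VV : (ShortComplex.mk (Vinc X ha hb hsa hsb) (Vpro X ha hb hsa hsb)
    (Vinc_Vpro X ha hb hsa hsb)).ShortExact := by
  refine shortExact_of ?_ ?_ ?_
  · intro x y h
    exact congrArg Prod.fst h
  · intro x
    exact ⟨(((0 : X.obj), (0 : X.obj)), x), rfl⟩
  · intro b hb
    have hb' : (b : (X.obj × X.obj) × X.obj).2 = 0 := hb
    refine ⟨(b : (X.obj × X.obj) × X.obj).1, ?_⟩
    exact Prod.ext rfl hb'.symm

/-- the map `(x, y) ↦ r x + s y` from the square of `X(1)` to `X(1)` -/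
noncomputable def Vfun (r s : ℚ_[l]) : VS X ⟶ TW X :=
  ObjectProperty.homMk (Rep.ofHom ⟨r • LinearMap.fst ℚ_[l] X.obj X.obj +
      s • LinearMap.snd ℚ_[l] X.obj X.obj, fun g => LinearMap.ext fun x => by
    change r • (chi l g • X.obj.ρ g x.1) + s • (chi l g • X.obj.ρ g x.2) =
      chi l g • X.obj.ρ g (r • x.1 + s • x.2)
    rw [map_add, map_smul, map_smul]
    module⟩)

theorem Vfun_add (r s r' s' : ℚ_[l]) :
    Vfun X (r + r') (s + s') = Vfun X r s + Vfun X r' s' := by
  apply ObjectProperty.hom_ext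
  apply Rep.hom_ext
  refine Representation.IntertwiningMap.ext (LinearMap.ext fun x => ?_)
  let x' : X.obj × X.obj := x
  change (r + r') • x'.1 + (s + s') • x'.2 = (r • x'.1 + s • x'.2) + (r' • x'.1 + s' • x'.2)
  module

/-- the push-out of the extension along a linear map -/
theorem VV_comp [HasExt.{w} P.FullSubcategory] (r s : ℚ_[l])
    {c : AbsGal F → ℚ_[l]} (hc : IsCoc c) (hsc : IsSplit c) (h : ∀ g, c g = r * a g + s * b g) :
    (shortExact_VV X ha hb hsa hsb).extClass.comp (Ext.mk₀ (Vfun X r s)) (add_zero 1) =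
      ((shortExact_EX X hc hsc).extClass : Ext.{w} X (TW X) 1) := by
  let τ₂ : VV X ha hb hsa hsb ⟶ EX X hc hsc :=
    ObjectProperty.homMk (Rep.ofHom ⟨LinearMap.prodMap (r • LinearMap.fst ℚ_[l] X.obj X.obj +
      s • LinearMap.snd ℚ_[l] X.obj X.obj) LinearMap.id, fun g =>
      LinearMap.ext fun x => by
        refine Prod.ext ?_ rfl
        change r • (chi l g • X.obj.ρ g x.1.1 + a g • X.obj.ρ g x.2) +
          s • (chi l g • X.obj.ρ g x.1.2 + b g • X.obj.ρ g x.2) =
          chi l g • X.obj.ρ g (r • x.1.1 + s • x.1.2) + c g • X.obj.ρ g x.2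
        rw [map_add, map_smul, map_smul, h]
        module⟩)
  let f : ShortComplex.mk (Vinc X ha hb hsa hsb) (Vpro X ha hb hsa hsb)
      (Vinc_Vpro X ha hb hsa hsb) ⟶
      ShortComplex.mk (eInc X hc hsc) (ePro X hc hsc) (eInc_ePro X hc hsc) :=
    { τ₁ := Vfun X r s
      τ₂ := τ₂
      τ₃ := 𝟙 _
      comm₁₂ := by
        apply ObjectProperty.hom_ext
        apply Rep.hom_ext
        refine Representation.IntertwiningMap.ext (LinearMap.ext fun x => ?_)
        rfl
      comm₂₃ := by
        apply ObjectProperty.hom_ext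
        apply Rep.hom_ext
        refine Representation.IntertwiningMap.ext (LinearMap.ext fun x => ?_)
        rfl }
  have h2 := ShortComplex.ShortExact.extClass_naturality (shortExact_VV X ha hb hsa hsb)
    (shortExact_EX X hc hsc) f
  rw [show f.τ₃ = 𝟙 _ from rfl, Ext.mk₀_id_comp] at h2
  exact h2

theorem exClass_add [HasExt.{w} P.FullSubcategory] {c : AbsGal F → ℚ_[l]} (hc : IsCoc c)
    (hsc : IsSplit c) (h : ∀ g, c g = a g + b g) :
    ((shortExact_EX X hc hsc).extClass : Ext.{w} X (TW X) 1) =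
      (shortExact_EX X ha hsa).extClass + (shortExact_EX X hb hsb).extClass := by
  rw [← VV_comp X ha hb hsa hsb (1 + 0) (0 + 1) hc hsc (fun g => by rw [h]; ring),
    ← VV_comp X ha hb hsa hsb 1 0 ha hsa (fun g => by ring),
    ← VV_comp X ha hb hsa hsb 0 1 hb hsb (fun g => by ring),
    Vfun_add, Ext.mk₀_add, Ext.comp_add]

theorem exClass_smul [HasExt.{w} P.FullSubcategory] (r : ℚ_[l]) {c : AbsGal F → ℚ_[l]}
    (hc : IsCoc c) (hsc : IsSplit c) (h : ∀ g, c g = r * a g) :
    ((shortExact_EX X hc hsc).extClass : Ext.{w} X (TW X) 1) =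
      r • (shortExact_EX X ha hsa).extClass := by
  let τ₂ : EX X ha hsa ⟶ EX X hc hsc :=
    ObjectProperty.homMk (Rep.ofHom ⟨LinearMap.prodMap (r • LinearMap.id) LinearMap.id, fun g =>
      LinearMap.ext fun x => by
        refine Prod.ext ?_ rfl
        change r • (chi l g • X.obj.ρ g x.1 + a g • X.obj.ρ g x.2) =
          chi l g • X.obj.ρ g (r • x.1) + c g • X.obj.ρ g x.2
        rw [h, map_smul]
        module⟩)
  let f : ShortComplex.mk (eInc X ha hsa) (ePro X ha hsa) (eInc_ePro X ha hsa) ⟶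
      ShortComplex.mk (eInc X hc hsc) (ePro X hc hsc) (eInc_ePro X hc hsc) :=
    { τ₁ := r • 𝟙 _
      τ₂ := τ₂
      τ₃ := 𝟙 _
      comm₁₂ := by
        apply ObjectProperty.hom_ext
        apply Rep.hom_ext
        refine Representation.IntertwiningMap.ext (LinearMap.ext fun x => ?_)
        let x' : X.obj := x
        change ((r • x', (0 : X.obj)) : X.obj × X.obj) = ((r • x', (0 : X.obj)) : X.obj × X.obj)
        rfl
      comm₂₃ := by
        apply ObjectProperty.hom_ext
        apply Rep.hom_ext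
        refine Representation.IntertwiningMap.ext (LinearMap.ext fun x => ?_)
        rfl }
  have h2 := ShortComplex.ShortExact.extClass_naturality (shortExact_EX X ha hsa)
    (shortExact_EX X hc hsc) f
  rw [show f.τ₃ = 𝟙 _ from rfl, Ext.mk₀_id_comp] at h2
  rw [Ext.smul_eq_comp_mk₀]
  exact h2.symm

end objects

end Pool.Agent.H89.CD
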