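import Mathlib
import Pool.Agent.H89.CD.MainP
import Pool.Agent.H89.CD.Tw

/-!
# The group `Ext ^ 2 (X, X(2))` is of infinite dimension for all objects `X ≠ 0`
-/

set_option autoImplicit false
set_option linter.unusedSectionVars false
set_option maxHeartbeats 1000000

universe w

open NumberField CategoryTheory Polynomial Limits Abelian
open Pool.Agent.N491.CD hiding comp_zero_apply shortExact_of ShortExact_inj ShortExact_surj ShortExact_exact prop_ExtT prop_Tate QQ EE inc pro inc_pro shortExact_EE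

namespace Pool.Agent.H89.CD

variable {F : Type} [Field F] [NumberField F] {l : ℕ} [hl : Fact l.Prime]

/-- The trace argument. -/
theorem no_blended_V {a : AbsGal F → ℚ_[l]} (ha : IsCoc a)
    (hno : ∀ C : AbsGal F → ℚ_[l], IsCo a C → Continuous C → False)
    (V Z : Reps F l) (hV : IsLadic V.ρ) (hZ : IsLadic Z.ρ) [Nontrivial V]
    (i b2 s : V →ₗ[ℚ_[l]] Z) (hi : Function.Injective i)
    (h1 : ∀ g x, Z.ρ g (i x) = (chi l g ^ 2) • i (V.ρ g x))
    (h2 : ∀ g x, Z.ρ g (b2 x) = chi l g • b2 (V.ρ g x) +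
      (chi l g * (be l g : ℚ_[l])) • i (V.ρ g x))
    (h3 : ∀ g x, ∃ y, Z.ρ g (s x) = s (V.ρ g x) + a g • b2 (V.ρ g x) + i y) : False := by
  have hfin := hV.finite
  obtain ⟨r, hr⟩ := i.exists_leftInverse_of_injective (LinearMap.ker_eq_bot.2 hi)
  have hr' : ∀ x, r (i x) = x := fun x => LinearMap.congr_fun hr x
  have hinv : ∀ g x, V.ρ g (V.ρ g⁻¹ x) = x := fun g x => by
    have : V.ρ (g * g⁻¹) x = V.ρ g (V.ρ g⁻¹ x) := by
      rw [Rep.ρ_mul, LinearMap.comp_apply]
    rw [← this, mul_inv_cancel, map_one]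
    rfl
  let D : AbsGal F → (V →ₗ[ℚ_[l]] V) := fun g =>
    r ∘ₗ (Z.ρ g ∘ₗ s ∘ₗ V.ρ g⁻¹ - s - a g • b2)
  have hD : ∀ g x, i (D g x) = Z.ρ g (s (V.ρ g⁻¹ x)) - s x - a g • b2 x := by
    intro g x
    obtain ⟨y, hy⟩ := h3 g (V.ρ g⁻¹ x)
    rw [hinv] at hy
    have e : Z.ρ g (s (V.ρ g⁻¹ x)) - s x - a g • b2 x = i y := by
      rw [hy]
      abel
    change i (r (Z.ρ g (s (V.ρ g⁻¹ x)) - s x - a g • b2 x)) = _
    rw [e, hr']
  have hDm : ∀ g h, D (g * h) = D g + (a h * (chi l g * (be l g : ℚ_[l]))) • LinearMap.id +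
      (chi l g ^ 2) • (V.ρ g ∘ₗ (D h ∘ₗ V.ρ g⁻¹)) := by
    intro g h
    refine LinearMap.ext fun x => hi ?_
    have e1 : Z.ρ h (s (V.ρ h⁻¹ (V.ρ g⁻¹ x))) =
        i (D h (V.ρ g⁻¹ x)) + s (V.ρ g⁻¹ x) + a h • b2 (V.ρ g⁻¹ x) := by
      rw [hD]
      abel
    have e2 : Z.ρ g (s (V.ρ g⁻¹ x)) = i (D g x) + s x + a g • b2 x := by
      rw [hD]
      abel
    have e3 : V.ρ (g * h)⁻¹ x = V.ρ h⁻¹ (V.ρ g⁻¹ x) := by
      rw [mul_inv_rev, Rep.ρ_mul, LinearMap.comp_apply]
    have e4 : Z.ρ (g * h) (s (V.ρ (g * h)⁻¹ x)) =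
        Z.ρ g (Z.ρ h (s (V.ρ h⁻¹ (V.ρ g⁻¹ x)))) := by
      rw [e3, Rep.ρ_mul, LinearMap.comp_apply]
    rw [hD, e4, e1, map_add, map_add, map_smul, e2, h1, h2, hinv, ha.mul]
    change _ = i (D g x + (a h * (chi l g * (be l g : ℚ_[l]))) • x +
      (chi l g ^ 2) • V.ρ g (D h (V.ρ g⁻¹ x)))
    rw [map_add, map_add, map_smul, map_smul]
    module
  let d : ℚ_[l] := Module.finrank ℚ_[l] V
  have hd : d ≠ 0 := by
    have : 0 < Module.finrank ℚ_[l] V := Module.finrank_pos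
    exact Nat.cast_ne_zero.2 this.ne'
  let t : AbsGal F → ℚ_[l] := fun g => LinearMap.trace ℚ_[l] V (D g)
  have ht : ∀ g h, t (g * h) = t g + (a h * (chi l g * (be l g : ℚ_[l]))) * d +
      chi l g ^ 2 * t h := by
    intro g h
    have e1 : LinearMap.trace ℚ_[l] V (V.ρ g ∘ₗ (D h ∘ₗ V.ρ g⁻¹)) =
        LinearMap.trace ℚ_[l] V (D h) := by
      rw [LinearMap.trace_comp_comm', LinearMap.comp_assoc]
      congr 1
      have e2 : V.ρ g⁻¹ ∘ₗ V.ρ g = LinearMap.id := by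
        refine LinearMap.ext fun x => ?_
        have := hinv g⁻¹ x
        rw [inv_inv] at this
        exact this
      rw [e2, LinearMap.comp_id]
    change LinearMap.trace ℚ_[l] V (D (g * h)) = _
    rw [hDm, map_add, map_add, map_smul, map_smul, e1, LinearMap.trace_id, smul_eq_mul,
      smul_eq_mul]
  have hcont : Continuous t := by
    let b := Module.finBasis ℚ_[l] V
    have e : t = fun g => ∑ j, ((∑ k, b.coord k (V.ρ g⁻¹ (b j)) *
        (b.coord j ∘ₗ r) (Z.ρ g (s (b k)))) - b.coord j (r (s (b j))) -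
        a g * b.coord j (r (b2 (b j)))) := by
      funext g
      change LinearMap.trace ℚ_[l] V (D g) = _
      rw [LinearMap.trace_eq_matrix_trace ℚ_[l] b, Matrix.trace]
      refine Finset.sum_congr rfl fun j _ => ?_
      rw [Matrix.diag_apply, LinearMap.toMatrix_apply]
      have e1 : V.ρ g⁻¹ (b j) = ∑ k, b.coord k (V.ρ g⁻¹ (b j)) • b k := (b.sum_repr _).symm
      have e2 : D g (b j) = r (Z.ρ g (s (V.ρ g⁻¹ (b j)))) - r (s (b j)) - a g • r (b2 (b j)) := by
        change r (Z.ρ g (s (V.ρ g⁻¹ (b j))) - s (b j) - a g • b2 (b j)) = _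
        rw [map_sub, map_sub, map_smul]
      change b.coord j (D g (b j)) = _
      rw [e2, map_sub, map_sub, map_smul, smul_eq_mul]
      congr 2
      conv_lhs => rw [e1]
      rw [map_sum, map_sum, map_sum, map_sum]
      refine Finset.sum_congr rfl fun k _ => ?_
      rw [map_smul, map_smul, map_smul, map_smul, smul_eq_mul]
      rfl
    rw [e]
    refine continuous_finsetSum _ fun j _ => ?_
    refine ((continuous_finsetSum _ fun k _ => ?_).sub continuous_const).sub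
      (ha.cont.mul continuous_const)
    exact ((hV.continuous (b j) (b.coord k)).comp continuous_inv).mul
      (hZ.continuous (s (b k)) (b.coord j ∘ₗ r))
  refine hno (fun g => t g * d⁻¹) (fun g h => ?_) (hcont.mul continuous_const)
  change t (g * h) * d⁻¹ = t g * d⁻¹ + a h * (chi l g * (be l g : ℚ_[l])) +
    chi l g ^ 2 * (t h * d⁻¹)
  rw [ht]
  field_simp

theorem ext_ne_zero_V {P : ObjectProperty (Reps F l)} [IsGood P] [IsExClosed P]
    [HasExt.{w} P.FullSubcategory] (X : P.FullSubcategory) [Nontrivial X.obj]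
    {a : AbsGal F → ℚ_[l]} (ha : IsCoc a) (hsa : IsSplit a)
    (hno : ∀ C : AbsGal F → ℚ_[l], IsCo a C → Continuous C → False) :
    (shortExact_EX X ha hsa).extClass.comp
      ((shortExact_EX (TW X) (isCoc_be (F := F) (l := l)) isSplit_be).extClass :
        Ext.{w} (TW X) (TW (TW X)) 1) (rfl : 1 + 1 = 2) ≠ 0 := by
  intro h
  obtain ⟨Z, i, q, wq, ψ, hs, h1, h2⟩ := exists_blended
    (shortExact_EX X ha hsa)
    (shortExact_EX (TW X) (isCoc_be (F := F) (l := l)) isSplit_be) h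
  have hψi : ∀ x : (TW (TW X)).obj,
      ψ.hom.hom ((eInc (TW X) (isCoc_be (F := F) (l := l)) isSplit_be).hom.hom x) =
        i.hom.hom x := fun x => by
    rw [← h1]
    rfl
  have hqψ : ∀ x : (EX (TW X) (isCoc_be (F := F) (l := l)) isSplit_be).obj,
      q.hom.hom (ψ.hom.hom x) = (eInc X ha hsa).hom.hom
        ((ePro (TW X) (isCoc_be (F := F) (l := l)) isSplit_be).hom.hom x) := fun x => by
    have h3 : (ψ ≫ q).hom.hom x = (ePro (TW X) (isCoc_be (F := F) (l := l)) isSplit_be ≫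
      eInc X ha hsa).hom.hom x := by rw [h2]
    exact h3
  have hqs := ShortExact_surj hs
  have hi := ShortExact_inj hs
  let iL : X.obj →ₗ[ℚ_[l]] Z.obj := i.hom.hom.toLinearMap
  let ψL : (X.obj × X.obj) →ₗ[ℚ_[l]] Z.obj := ψ.hom.hom.toLinearMap
  let qL : Z.obj →ₗ[ℚ_[l]] (X.obj × X.obj) := q.hom.hom.toLinearMap
  obtain ⟨σ, hσ⟩ := qL.exists_rightInverse_of_surjective (LinearMap.range_eq_top.2 hqs)
  have hσ' : ∀ x, qL (σ x) = x := fun x => LinearMap.congr_fun hσ x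
  have hψ1 : ∀ x : X.obj, ψL (x, 0) = iL x := fun x => hψi x
  have hψ2 : ∀ x : X.obj, qL (ψL (0, x)) = (x, 0) := fun x =>
    hqψ (((0 : X.obj), x) : X.obj × X.obj)
  have hψadd : ∀ x y : X.obj, ψL (x, y) = iL x + ψL (0, y) := fun x y => by
    rw [← hψ1, ← map_add]
    congr 1
    exact Prod.ext (by simp) (by simp)
  refine no_blended_V ha hno X.obj Z.obj (IsGood.ladic _ X.property) (IsGood.ladic _ Z.property)
    iL (ψL ∘ₗ LinearMap.inr ℚ_[l] X.obj X.obj) (σ ∘ₗ LinearMap.inr ℚ_[l] X.obj X.obj) hi ?_ ?_ ?_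
  · intro g x
    have e1 : Z.obj.ρ g (iL x) = iL ((TW (TW X)).obj.ρ g x) :=
      (Rep.hom_comm_apply i.hom g x).symm
    rw [e1]
    change iL (chi l g • (chi l g • X.obj.ρ g x)) = _
    rw [map_smul, map_smul]
    module
  · intro g x
    have e1 : Z.obj.ρ g (ψL (0, x)) =
        ψL ((EX (TW X) (isCoc_be (F := F) (l := l)) isSplit_be).obj.ρ g
          (((0 : X.obj), x) : X.obj × X.obj)) :=
      (Rep.hom_comm_apply ψ.hom g (((0 : X.obj), x) : X.obj × X.obj)).symm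
    change Z.obj.ρ g (ψL (0, x)) = chi l g • ψL (0, X.obj.ρ g x) +
      (chi l g * (be l g : ℚ_[l])) • iL (X.obj.ρ g x)
    rw [e1]
    change ψL (chi l g • (chi l g • X.obj.ρ g (0 : X.obj)) +
      (be l g : ℚ_[l]) • (chi l g • X.obj.ρ g x), chi l g • X.obj.ρ g x) = _
    rw [hψadd, map_zero, smul_zero, smul_zero, zero_add, map_smul, map_smul]
    have e2 : ψL (0, chi l g • X.obj.ρ g x) = chi l g • ψL (0, X.obj.ρ g x) := by
      have e3 : (((0 : X.obj), chi l g • X.obj.ρ g x) : X.obj × X.obj) =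
          chi l g • (((0 : X.obj), X.obj.ρ g x) : X.obj × X.obj) :=
        Prod.ext (smul_zero _).symm rfl
      rw [e3, map_smul]
    rw [e2]
    module
  · intro g x
    have hq1 : ∀ z : Z.obj, qL (Z.obj.ρ g z) = (EX X ha hsa).obj.ρ g (qL z) := fun z =>
      Rep.hom_comm_apply q.hom g z
    obtain ⟨y, hy⟩ := ShortExact_exact hs
      (Z.obj.ρ g (σ (0, x)) - σ (0, X.obj.ρ g x) - a g • ψL (0, X.obj.ρ g x)) (by
        change qL (Z.obj.ρ g (σ (0, x)) - σ (0, X.obj.ρ g x) - a g • ψL (0, X.obj.ρ g x)) = 0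
        rw [map_sub, map_sub, map_smul, hσ', hψ2, hq1, hσ']
        refine Prod.ext ?_ ?_
        · change chi l g • X.obj.ρ g (0 : X.obj) + a g • X.obj.ρ g x - 0 -
            a g • X.obj.ρ g x = 0
          rw [map_zero, smul_zero]
          abel
        · change X.obj.ρ g x - X.obj.ρ g x - a g • (0 : X.obj) = 0
          rw [smul_zero]
          abel)
    refine ⟨y, ?_⟩
    change Z.obj.ρ g (σ (0, x)) = σ (0, X.obj.ρ g x) + a g • ψL (0, X.obj.ρ g x) + iL y
    have hy' : iL y = Z.obj.ρ g (σ (0, x)) - σ (0, X.obj.ρ g x) - a g • ψL (0, X.obj.ρ g x) := hy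
    rw [hy']
    abel

/-- The class of the extension of `X` by `X(1)`, as a linear map on the space of cocycles. -/
noncomputable def exL {P : ObjectProperty (Reps F l)} [IsGood P] [IsExClosed P]
    [HasExt.{w} P.FullSubcategory] (X : P.FullSubcategory) :
    Zs F l →ₗ[ℚ_[l]] Ext.{w} X (TW X) 1 where
  toFun a := (shortExact_EX X a.2.1 a.2.2).extClass
  map_add' a b := exClass_add X a.2.1 b.2.1 a.2.2 b.2.2 _ _ fun _ => rfl
  map_smul' r a := exClass_smul X a.2.1 a.2.2 r _ _ fun _ => rfl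

theorem exists_family_V {P : ObjectProperty (Reps F l)} [IsGood P] [IsExClosed P]
    [HasExt.{w} P.FullSubcategory] (X : P.FullSubcategory) [Nontrivial X.obj] :
    ∃ (e : (ℕ → Bool) → Ext.{w} X (TW X) 1) (f : Ext.{w} (TW X) (TW (TW X)) 1),
      LinearIndependent ℚ_[l] fun x => (e x).comp f (rfl : 1 + 1 = 2) := by
  let f : Ext.{w} (TW X) (TW (TW X)) 1 :=
    (shortExact_EX (TW X) (isCoc_be (F := F) (l := l)) isSplit_be).extClass
  refine ⟨fun x => exL X (alZ F l x), f, ?_⟩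
  let L : Zs F l →ₗ[ℚ_[l]] Ext.{w} X (TW (TW X)) 2 :=
    (Ext.postcompOfLinear f ℚ_[l] X (rfl : 1 + 1 = 2)).comp (exL X)
  change LinearIndependent ℚ_[l] fun x : ℕ → Bool => L (alZ F l x)
  rw [linearIndependent_iff']
  intro s c h x hx
  by_contra hcx
  have h1 : L (∑ y ∈ s, c y • alZ F l y) = 0 := by
    rw [map_sum, ← h]
    refine Finset.sum_congr rfl fun y _ => ?_
    rw [map_smul]
  refine ext_ne_zero_V X (∑ y ∈ s, c y • alZ F l y).2.1 (∑ y ∈ s, c y • alZ F l y).2.2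
    (fun C hC hcont => ?_) h1
  refine no_function' (C := C) hx hcx ?_ hcont
  have h2 : ((∑ y ∈ s, c y • alZ F l y : Zs F l) : AbsGal F → ℚ_[l]) =
      fun t : AbsGal F => ∑ y ∈ s, c y * (alX l (XX y) t : ℚ_[l]) := by
    funext t
    rw [Submodule.coe_sum, Finset.sum_apply]
    rfl
  rw [← h2]
  exact hC

end Pool.Agent.H89.CD
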