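import Mathlib
import Pool.Agent.H89.CD.Tw

/-!
# The tensor products of mixed representations with the extensions of `ℚ_l` by `ℚ_l(1)` are mixed
-/

set_option autoImplicit false
set_option linter.unusedSectionVars false
set_option maxHeartbeats 1000000

open NumberField CategoryTheory Polynomial Limits
open Pool.Agent.N491.CD hiding comp_zero_apply shortExact_of ShortExact_inj ShortExact_surj ShortExact_exact prop_ExtT prop_Tate QQ EE inc pro inc_pro shortExact_EE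

namespace Pool.Agent.H89.CD

variable {F : Type} [Field F] [NumberField F] {l : ℕ} [hl : Fact l.Prime]

theorem ladic_Ex {V : Reps F l} (hV : IsLadic V.ρ) {a : AbsGal F → ℚ_[l]} (ha : IsCoc a) :
    IsLadic (Ex V ha).ρ where
  finite := by
    have := hV.finite
    exact inferInstanceAs (FiniteDimensional ℚ_[l] (V × V))
  continuous v f := by
    let v' : V × V := v
    let f' : (V × V) →ₗ[ℚ_[l]] ℚ_[l] := f
    have e : (fun g : AbsGal F => f ((Ex V ha).ρ g v)) = fun g =>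
        chi l g * (f' ∘ₗ LinearMap.inl ℚ_[l] V V) (V.ρ g v'.1) +
        a g * (f' ∘ₗ LinearMap.inl ℚ_[l] V V) (V.ρ g v'.2) +
        (f' ∘ₗ LinearMap.inr ℚ_[l] V V) (V.ρ g v'.2) := by
      funext g
      change f' (chi l g • V.ρ g v'.1 + a g • V.ρ g v'.2, V.ρ g v'.2) =
        chi l g * f' (V.ρ g v'.1, 0) + a g * f' (V.ρ g v'.2, 0) + f' (0, V.ρ g v'.2)
      have e1 : ((chi l g • V.ρ g v'.1 + a g • V.ρ g v'.2, V.ρ g v'.2) : V × V) =
          chi l g • ((V.ρ g v'.1, 0) : V × V) + a g • ((V.ρ g v'.2, 0) : V × V) +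
            ((0, V.ρ g v'.2) : V × V) := by
        refine Prod.ext ?_ ?_
        · change _ = chi l g • V.ρ g v'.1 + a g • V.ρ g v'.2 + 0
          rw [add_zero]
        · change _ = chi l g • (0 : V) + a g • (0 : V) + V.ρ g v'.2
          rw [smul_zero, smul_zero, add_zero, zero_add]
      rw [e1, map_add, map_add, map_smul, map_smul, smul_eq_mul, smul_eq_mul]
    rw [e]
    exact ((continuous_chi.mul (hV.continuous _ _)).add (ha.cont.mul (hV.continuous _ _))).add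
      (hV.continuous _ _)

/-- the filtration of the tensor product -/
noncomputable def fil {V : Reps F l} (W : ℤ → Submodule ℚ_[l] V) (m : ℤ) : Submodule ℚ_[l] (V × V) :=
  (W (m + 2)).prod (W m)

theorem mem_fil {V : Reps F l} {W : ℤ → Submodule ℚ_[l] V} {m : ℤ} {x : V × V} :
    x ∈ fil W m ↔ x.1 ∈ W (m + 2) ∧ x.2 ∈ W m := Submodule.mem_prod

theorem fil_mono {V : Reps F l} {W : ℤ → Submodule ℚ_[l] V} (hm : Monotone W) :
    Monotone (fil W) := fun m n hmn x hx =>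
  ⟨hm (by omega) (mem_fil.1 hx).1, hm hmn (mem_fil.1 hx).2⟩

theorem fil_bot {V : Reps F l} {W : ℤ → Submodule ℚ_[l] V} (hm : Monotone W) {c : ℤ}
    (hc : W c = ⊥) : fil W (c - 2) = ⊥ := by
  rw [eq_bot_iff]
  intro x hx
  obtain ⟨h1, h2⟩ := mem_fil.1 hx
  have h3 := hm (show c - 2 ≤ c by omega) h2
  rw [show c - 2 + 2 = c by ring] at h1
  rw [hc, Submodule.mem_bot] at h1 h3
  exact Prod.ext h1 h3

theorem fil_top {V : Reps F l} {W : ℤ → Submodule ℚ_[l] V} (hm : Monotone W) {d : ℤ}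
    (hd : W d = ⊤) : fil W d = ⊤ := by
  rw [eq_top_iff]
  intro x _
  refine mem_fil.2 ⟨hm (show d ≤ d + 2 by omega) ?_, ?_⟩
  · rw [hd]
    trivial
  · rw [hd]
    trivial

theorem fil_stable {V : Reps F l} {W : ℤ → Submodule ℚ_[l] V} (hm : Monotone W)
    (hW : ∀ m, Stable V.ρ (W m)) {a : AbsGal F → ℚ_[l]} (ha : IsCoc a) (m : ℤ) :
    Stable (Ex V ha).ρ (fil W m) := by
  intro g x hx
  obtain ⟨h1, h2⟩ := mem_fil.1 hx
  refine mem_fil.2 ⟨?_, hW m g _ h2⟩
  exact (W (m + 2)).add_mem ((W (m + 2)).smul_mem _ (hW _ g _ h1))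
    ((W (m + 2)).smul_mem _ (hm (by omega) (hW m g _ h2)))

theorem aeval_twist {M : Type} [AddCommGroup M] [Module ℚ_[l] M] (A : Module.End ℚ_[l] M)
    {q : ℕ} (hq : q ≠ 0) (Q : ℚ[X]) :
    aeval ((q : ℚ_[l])⁻¹ • A) ((Q.comp (C (q : ℚ) * X)).map (algebraMap ℚ ℚ_[l])) =
      aeval A (Q.map (algebraMap ℚ ℚ_[l])) := by
  have hq0 : (q : ℚ_[l]) ≠ 0 := by exact_mod_cast hq
  rw [Polynomial.map_comp, aeval_comp, Polynomial.map_mul, map_C, map_X, map_mul, aeval_C,
    aeval_X, map_natCast, map_natCast]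
  congr 1
  have e8 : (q : Module.End ℚ_[l] M) * ((q : ℚ_[l])⁻¹ • A) = A := by
    rw [mul_smul_comm, ← nsmul_eq_mul, ← Nat.cast_smul_eq_nsmul ℚ_[l], smul_smul,
      inv_mul_cancel₀ hq0, one_smul]
  rw [e8]

theorem pure_fil {V : Reps F l} {W : ℤ → Submodule ℚ_[l] V} (hm : Monotone W)
    (hW : ∀ m, Stable V.ρ (W m)) (hp : ∀ m, PureGr V.ρ (W (m - 1)) (W m) m)
    {a : AbsGal F → ℚ_[l]} (ha : IsCoc a) (m : ℤ) :
    PureGr (Ex V ha).ρ (fil W (m - 1)) (fil W m) m := by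
  obtain ⟨N, hN, h1⟩ := hp (m + 2)
  obtain ⟨N', hN', h1'⟩ := hp m
  have em : m + 2 - 1 = m - 1 + 2 := by ring
  rw [em] at h1
  refine ⟨N * N', mul_ne_zero hN hN', fun P hP hNP hlP => ?_⟩
  have hNP1 : (N : 𝓞 (AlgebraicClosure F)) ∉ P := fun h => hNP (by
    rw [Nat.cast_mul]
    exact P.mul_mem_right _ h)
  have hNP2 : (N' : 𝓞 (AlgebraicClosure F)) ∉ P := fun h => hNP (by
    rw [Nat.cast_mul]
    exact P.mul_mem_left _ h)
  obtain ⟨h2, h3⟩ := h1 P hP hNP1 hlP
  obtain ⟨h2', h3'⟩ := h1' P hP hNP2 hlP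
  refine ⟨fun τ hτ x hx => ?_, fun Φ hΦ => ?_⟩
  · obtain ⟨hx1, hx2⟩ := mem_fil.1 hx
    refine mem_fil.2 ⟨?_, h2' τ hτ _ hx2⟩
    change chi l τ • V.ρ τ x.1 + a τ • V.ρ τ x.2 - x.1 ∈ W (m - 1 + 2)
    rw [chi_inertia hP hlP hτ, one_smul, add_sub_right_comm]
    exact (W (m - 1 + 2)).add_mem (h2 τ hτ _ hx1)
      ((W (m - 1 + 2)).smul_mem _ (hm (by omega) (hW m τ _ hx2)))
  · obtain ⟨Q, hQ, h4, h5⟩ := h3 Φ hΦ
    obtain ⟨Q', hQ', h4', h5'⟩ := h3' Φ hΦ
    have hq : 0 < residueCard P := residueCard_pos hP hlP hΦ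
    have hqQ : (residueCard P : ℚ) ≠ 0 := by exact_mod_cast hq.ne'
    let Q1 : ℚ[X] := Q.comp (C (residueCard P : ℚ) * X)
    have hQ1 : Q1 ≠ 0 := by
      intro h0
      apply hQ
      have e : Q1.comp (C (residueCard P : ℚ)⁻¹ * X) = Q := by
        change (Q.comp (C (residueCard P : ℚ) * X)).comp (C (residueCard P : ℚ)⁻¹ * X) = Q
        rw [comp_assoc, mul_comp, C_comp, X_comp, ← mul_assoc, ← C_mul, mul_inv_cancel₀ hqQ, C_1,
          one_mul, comp_X]
      rw [← e, h0, Polynomial.zero_comp]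
    refine ⟨Q1 * Q', mul_ne_zero hQ1 hQ', fun z hz => ?_, fun x hx => ?_⟩
    · rw [map_mul, mul_eq_zero] at hz
      rcases hz with hz | hz
      · have hz' : aeval ((residueCard P : ℂ) * z) Q = 0 := by
          rw [← hz]
          change _ = aeval z (Q.comp (C (residueCard P : ℚ) * X))
          rw [aeval_comp, map_mul, aeval_C, aeval_X, map_natCast]
        have h6 := h4 _ hz'
        rw [norm_mul, Complex.norm_natCast] at h6
        have hq' : (0 : ℝ) < residueCard P := by exact_mod_cast hq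
        have h7 : (residueCard P : ℝ) ^ (((m + 2 : ℤ) : ℝ) / 2) =
            residueCard P * (residueCard P : ℝ) ^ ((m : ℝ) / 2) := by
          rw [show (((m + 2 : ℤ) : ℝ) / 2) = 1 + (m : ℝ) / 2 by push_cast; ring,
            Real.rpow_add hq', Real.rpow_one]
        rw [h7] at h6
        exact mul_left_cancel₀ hq'.ne' h6
      · exact h4' z hz
    · rw [Polynomial.map_mul, map_mul, Module.End.mul_apply]
      set R : ℚ_[l][X] := Q'.map (algebraMap ℚ ℚ_[l]) with hR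
      set R1 : ℚ_[l][X] := Q1.map (algebraMap ℚ ℚ_[l]) with hR1
      let y : V × V := aeval ((Ex V ha).ρ Φ) R x
      have hst := fun m => fil_stable hm hW ha m
      have hy : y ∈ fil W m := aeval_mem (X := Ex V ha) (hst m Φ) R hx
      have hy2 : y.2 ∈ W (m - 1) := by
        have e := hom_aeval (exPro V ha) Φ R x
        have e' : y.2 = aeval (V.ρ Φ) R (x : V × V).2 := e
        rw [e']
        exact h5' _ (mem_fil.1 hx).2
      have hy1 : y.1 ∈ W (m + 2) := (mem_fil.1 hy).1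
      have e1 : aeval ((Ex V ha).ρ Φ) R1 y =
          aeval ((Ex V ha).ρ Φ) R1 ((y.1, 0) : V × V) + aeval ((Ex V ha).ρ Φ) R1 ((0, y.2) : V × V) := by
        refine Eq.trans ?_ (map_add (aeval ((Ex V ha).ρ Φ) R1) ((y.1, 0) : V × V)
          ((0, y.2) : V × V))
        congr 1
        exact Prod.ext (add_zero _).symm (zero_add _).symm
      have e2 : aeval ((Ex V ha).ρ Φ) R1 ((y.1, 0) : V × V) ∈ fil W (m - 1) := by
        have e3 := hom_aeval (exInc V ha) Φ R1 y.1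
        have e4 : aeval ((Tw1 V).ρ Φ) R1 y.1 =
            aeval (V.ρ Φ) (Q.map (algebraMap ℚ ℚ_[l])) y.1 := by
          have e5 := aeval_twist (M := V) (V.ρ Φ) hq.ne' Q
          rw [← chi_frobenius hP hlP hΦ] at e5
          exact LinearMap.congr_fun e5 y.1
        rw [e4] at e3
        have e7 : aeval ((Ex V ha).ρ Φ) R1 ((y.1, 0) : V × V) =
            ((aeval (V.ρ Φ) (Q.map (algebraMap ℚ ℚ_[l])) y.1, 0) : V × V) := e3.symm
        rw [e7]
        exact mem_fil.2 ⟨h5 _ hy1, Submodule.zero_mem _⟩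
      have e3 : aeval ((Ex V ha).ρ Φ) R1 ((0, y.2) : V × V) ∈ fil W (m - 1) :=
        aeval_mem (X := Ex V ha) (hst (m - 1) Φ) R1
          (mem_fil.2 ⟨Submodule.zero_mem _, hy2⟩)
      change aeval ((Ex V ha).ρ Φ) R1 y ∈ fil W (m - 1)
      rw [e1]
      exact (fil W (m - 1)).add_mem e2 e3

theorem IsMixed.ex {V : Reps F l} (hV : IsMixed V.ρ) {a : AbsGal F → ℚ_[l]} (ha : IsCoc a) :
    IsMixed (Ex V ha).ρ := by
  obtain ⟨W, hW, hm, ⟨c, hc⟩, ⟨d, hd⟩, hp⟩ := hV
  refine ⟨fil W, fun m => fil_stable hm hW ha m, fil_mono hm, ⟨c - 2, ?_⟩, ⟨d, ?_⟩,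
    pure_fil hm hW hp ha⟩
  · exact fil_bot hm hc
  · exact fil_top hm hd

theorem IsMixedSS.ex {V : Reps F l} (hV : IsMixedSS V.ρ) {a : AbsGal F → ℚ_[l]} (ha : IsCoc a) :
    IsMixedSS (Ex V ha).ρ := by
  obtain ⟨W, hW, hm, ⟨c, hc⟩, ⟨d, hd⟩, hp⟩ := hV
  refine ⟨fil W, fun m => fil_stable hm hW ha m, fil_mono hm, ⟨c - 2, ?_⟩, ⟨d, ?_⟩,
    fun m => ⟨pure_fil hm hW (fun m => (hp m).1) ha m, ?_⟩⟩
  · exact fil_bot hm hc
  · exact fil_top hm hd
  · have hB : Stable (Ex V ha).ρ (fil W m) := fil_stable hm hW ha m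
    have hm1 : W (m - 1) ≤ W m := hm (by omega)
    have hm2 : W (m - 1 + 2) ≤ W (m + 2) := hm (by omega)
    have hm3 : W m ≤ W (m - 1 + 2) := hm (by omega)
    let K : Submodule ℚ_[l] (Ex V ha) :=
      (W (m - 1)).comap (exPro V ha).hom.toLinearMap ⊓ fil W m
    let L : Submodule ℚ_[l] (V × V) := (W (m - 1 + 2)).prod (W m)
    have hK : SsGr (Ex V ha).ρ K (fil W m) :=
      (hp m).2.comap (exPro V ha) (hW (m - 1)) hm1 hB (fun x hx => (mem_fil.1 hx).2)
    have hKs : Stable (Ex V ha).ρ K := (stable_comap (exPro V ha) (hW (m - 1))).inf hB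
    have hLs : Stable (Ex V ha).ρ L := by
      intro g x hx
      obtain ⟨h1, h2⟩ := Submodule.mem_prod.1 hx
      refine Submodule.mem_prod.2 ⟨?_, hW m g _ h2⟩
      exact (W (m - 1 + 2)).add_mem ((W (m - 1 + 2)).smul_mem _ (hW _ g _ h1))
        ((W (m - 1 + 2)).smul_mem _ (hm3 (hW m g _ h2)))
    have hL : SsGr (Ex V ha).ρ L (fil W m) := by
      intro U hU hLU hUB
      let U1 : Submodule ℚ_[l] V := Submodule.comap (LinearMap.inl ℚ_[l] V V) U
      have hU1 : Stable V.ρ U1 := by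
        intro g x hx
        have h1 : ((chi l g • V.ρ g x, 0) : V × V) ∈ U := by
          have h2 := hU g ((x, 0) : V × V) hx
          have h3 : ((chi l g • V.ρ g x, 0) : V × V) = (Ex V ha).ρ g ((x, 0) : V × V) := by
            refine Prod.ext ?_ ?_
            · change chi l g • V.ρ g x = chi l g • V.ρ g x + a g • V.ρ g 0
              rw [map_zero, smul_zero, add_zero]
            · change (0 : V) = V.ρ g 0
              rw [map_zero]
          rw [h3]
          exact h2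
        have h2 := U.smul_mem (chi l g)⁻¹ h1
        have h3 : ((V.ρ g x, 0) : V × V) = (chi l g)⁻¹ • ((chi l g • V.ρ g x, 0) : V × V) := by
          refine Prod.ext ?_ ?_
          · change V.ρ g x = (chi l g)⁻¹ • (chi l g • V.ρ g x)
            rw [smul_smul, inv_mul_cancel₀ (chi_ne_zero g), one_smul]
          · exact (smul_zero _).symm
        change ((V.ρ g x, 0) : V × V) ∈ U
        rw [h3]
        exact h2
      have hWU : W (m - 1 + 2) ≤ U1 := fun x hx =>
        hLU (Submodule.mem_prod.2 ⟨hx, Submodule.zero_mem _⟩)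
      have hUW : U1 ≤ W (m + 2) := fun x hx => (mem_fil.1 (hUB hx)).1
      have h0 := (hp (m + 2)).2
      rw [show m + 2 - 1 = m - 1 + 2 by ring] at h0
      obtain ⟨C, hC, h1, h2⟩ := h0 U1 hU1 hWU hUW
      have hWC : W (m - 1 + 2) ≤ C := by
        rw [← h1]
        exact inf_le_right
      have hCW : C ≤ W (m + 2) := by
        rw [← h2]
        exact le_sup_right
      refine ⟨C.prod (W m), ?_, le_antisymm ?_ ?_, le_antisymm ?_ ?_⟩
      · intro g x hx
        obtain ⟨h3, h4⟩ := Submodule.mem_prod.1 hx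
        refine Submodule.mem_prod.2 ⟨?_, hW m g _ h4⟩
        exact C.add_mem (C.smul_mem _ (hC g _ h3))
          (C.smul_mem _ (hWC (hm3 (hW m g _ h4))))
      · rintro x ⟨hxU, hxC⟩
        obtain ⟨h3, h4⟩ := Submodule.mem_prod.1 hxC
        let x' : V × V := x
        have h5 : ((0, x'.2) : V × V) ∈ U :=
          hLU (Submodule.mem_prod.2 ⟨Submodule.zero_mem _, h4⟩)
        have h6 : ((x'.1, 0) : V × V) ∈ U := by
          have h7 : ((x'.1, 0) : V × V) = x' - ((0, x'.2) : V × V) :=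
            Prod.ext (sub_zero _).symm (sub_self _).symm
          rw [h7]
          exact U.sub_mem hxU h5
        have h7 : x'.1 ∈ U1 ⊓ C := ⟨h6, h3⟩
        rw [h1] at h7
        exact Submodule.mem_prod.2 ⟨h7, h4⟩
      · refine le_inf hLU fun x hx => ?_
        obtain ⟨h3, h4⟩ := Submodule.mem_prod.1 hx
        exact Submodule.mem_prod.2 ⟨hWC h3, h4⟩
      · refine sup_le hUB fun x hx => ?_
        obtain ⟨h3, h4⟩ := Submodule.mem_prod.1 hx
        exact mem_fil.2 ⟨hCW h3, h4⟩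
      · intro x hx
        obtain ⟨h3, h4⟩ := mem_fil.1 hx
        let x' : V × V := x
        have h5 : x'.1 ∈ U1 ⊔ C := by
          rw [h2]
          exact h3
        obtain ⟨u, hu, c, hc, huc⟩ := Submodule.mem_sup.1 h5
        have h6 : x' = ((u, 0) : V × V) + ((c, x'.2) : V × V) :=
          Prod.ext huc.symm (zero_add _).symm
        exact Submodule.mem_sup.2 ⟨((u, 0) : V × V), hu, ((c, x'.2) : V × V),
          Submodule.mem_prod.2 ⟨hc, h4⟩, h6.symm⟩
    refine SsGr.two hK hL hKs hLs (le_antisymm ?_ ?_) inf_le_right ?_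
    · rintro x ⟨⟨hx1, hx2⟩, hx3⟩
      exact mem_fil.2 ⟨(Submodule.mem_prod.1 hx3).1, hx1⟩
    · intro x hx
      obtain ⟨h3, h4⟩ := mem_fil.1 hx
      exact ⟨⟨h4, mem_fil.2 ⟨hm2 h3, hm1 h4⟩⟩, Submodule.mem_prod.2 ⟨h3, hm1 h4⟩⟩
    · intro x hx
      obtain ⟨h3, h4⟩ := Submodule.mem_prod.1 hx
      exact mem_fil.2 ⟨hm2 h3, h4⟩

section cat

variable (𝒜 : ObjectProperty (Reps F l)) [IsAdmissible 𝒜] [IsExClosed 𝒜]

instance isExClosed_mixed : IsExClosed (Mixed 𝒜) where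
  ex V _ ha hs hV := ⟨ladic_Ex hV.1 ha, IsMixed.ex hV.2.1 ha, IsExClosed.ex V _ ha hs hV.2.2⟩

instance isExClosed_mixedSS : IsExClosed (MixedSS 𝒜) where
  ex V _ ha hs hV := ⟨ladic_Ex hV.1 ha, IsMixedSS.ex hV.2.1 ha, IsExClosed.ex V _ ha hs hV.2.2⟩

end cat

end Pool.Agent.H89.CD
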