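import Mathlib
import Pool.Agent.H89.CD.MainV
import Pool.Agent.H89.CD.TwMixed

/-!
# The Tate twist and tensor products with Kummer extensions, up to isomorphism
-/

set_option autoImplicit false
set_option linter.unusedSectionVars false

open CategoryTheory
open Pool.Agent.N491.CD hiding comp_zero_apply shortExact_of ShortExact_inj ShortExact_surj ShortExact_exact prop_ExtT prop_Tate QQ EE inc pro inc_pro shortExact_EE

namespace Pool.Agent.H89.CD

variable {F : Type} [Field F] [NumberField F] {l : ℕ} [hl : Fact l.Prime]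

section defs

variable {V W : Type} [AddCommGroup V] [Module ℚ_[l] V] [AddCommGroup W] [Module ℚ_[l] W]

/-- The representation `ρ'` is isomorphic to the Tate twist `ρ(1)` of `ρ`. -/
def IsTwistOf (ρ : Representation ℚ_[l] (AbsGal F) V) (ρ' : Representation ℚ_[l] (AbsGal F) W) :
    Prop :=
  ∃ e : V ≃ₗ[ℚ_[l]] W, ∀ g x, ρ' g (e x) = chi l g • e (ρ g x)

/-- the action of `g` on `V(1) × V` given by the function `a` -/
noncomputable def kummerAct (a : AbsGal F → ℚ_[l]) (ρ : Representation ℚ_[l] (AbsGal F) V)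
    (g : AbsGal F) (x y : V) : V × V :=
  (chi l g • ρ g x + a g • ρ g y, ρ g y)

/-- The representation `ρ'` is isomorphic to the tensor product of `ρ` with the extension of `ℚ_l` by
`ℚ_l(1)` which is given by the cocycle `a`. -/
def IsKummerProduct (a : AbsGal F → ℚ_[l]) (ρ : Representation ℚ_[l] (AbsGal F) V)
    (ρ' : Representation ℚ_[l] (AbsGal F) W) : Prop :=
  ∃ e : (V × V) ≃ₗ[ℚ_[l]] W, ∀ g x y, ρ' g (e (x, y)) = e (kummerAct a ρ g x y)

end defs

/-- The class `P` is closed under tensor products with the extensions of `ℚ_l` by `ℚ_l(1)` which split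
on the decomposition groups above `l`. -/
def IsKummerClosed (P : ObjectProperty (Reps F l)) : Prop :=
  ∀ (V W : Reps F l) (a : AbsGal F → ℚ_[l]), IsCoc a → IsSplit a → IsKummerProduct a V.ρ W.ρ →
    P V → P W

theorem IsKummerClosed.isExClosed {P : ObjectProperty (Reps F l)} (h : IsKummerClosed P) :
    IsExClosed P where
  ex V a ha hs hV := by
    refine h V (Ex V ha) a ha hs ⟨LinearEquiv.refl ℚ_[l] (V × V), fun g x y => ?_⟩ hV
    rfl

theorem isTwistOf_Tw1 (V : Reps F l) : IsTwistOf V.ρ (Tw1 V).ρ :=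
  ⟨LinearEquiv.refl ℚ_[l] V, fun _ _ => rfl⟩

theorem isTwistOf_Tate (n : ℤ) : IsTwistOf (Tate F l n).ρ (Tate F l (n + 1)).ρ := by
  refine ⟨LinearEquiv.refl ℚ_[l] ℚ_[l], fun g x => ?_⟩
  let x' : ℚ_[l] := x
  change chi l g ^ (n + 1) * x' = chi l g * (chi l g ^ n * x')
  rw [zpow_split _ (chi_ne_zero g)]
  ring

end Pool.Agent.H89.CD
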